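import Mathlib
import Pool.Agent.H45.CH0Ell
import Pool.Agent.H45.CH0Surf
set_option autoImplicit false

/-! # The twisted cusp `w ^ 2 = x ((u ^ 2 - x v ^ 2) ^ 2 + u ^ 5)` over a ring with an element `x` -/

namespace H45.PC
open Polynomial H45.CH0

section
variable (E : Type) [CommRing E] (x : E)

/-- the equation of the family of cusps, `u = C X`, `v = X` -/
noncomputable def dG : E[X][X] := C (C x) * (((C X) ^ 2 - C (C x) * X ^ 2) ^ 2 + (C X) ^ 5)

/-- the coordinate ring of the family of cusps -/
abbrev RG : Type := QuadraticAlgebra E[X][X] (dG E x) 0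

/-- constants -/
noncomputable def eG : E →+* RG E x := (algebraMap E[X][X] (RG E x)).comp ((C : E[X] →+* E[X][X]).comp (C : E →+* E[X]))
/-- the function `u` -/
noncomputable def uG : RG E x := algebraMap E[X][X] (RG E x) (C X)
/-- the function `v` -/
noncomputable def vG : RG E x := algebraMap E[X][X] (RG E x) X
/-- the function `w` -/
noncomputable def wG : RG E x := qw (dG E x)

lemma wG_sq : (wG E x) ^ 2 = eG E x x * (((uG E x) ^ 2 - eG E x x * (vG E x) ^ 2) ^ 2 + (uG E x) ^ 5) := by
  unfold wG
  rw [qw_sq]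
  change algebraMap E[X][X] (RG E x) (C (C x) * (((C X) ^ 2 - C (C x) * X ^ 2) ^ 2 + (C X) ^ 5)) = _
  rw [map_mul, map_add, map_pow, map_sub, map_mul, map_pow, map_pow, map_pow]
  rfl

variable {E x} {T : Type} [CommRing T] (j : E →+* T) (u v w : T)
  (h : w ^ 2 = j x * ((u ^ 2 - j x * v ^ 2) ^ 2 + u ^ 5))

/-- construction of homomorphisms from `RG` -/
noncomputable def rgLift : RG E x →+* T :=
  qLift (eval₂RingHom (eval₂RingHom j u) v) w (by
    rw [h]
    simp only [dG, map_mul, map_add, map_sub, map_pow, coe_eval₂RingHom, eval₂_C, eval₂_X])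

lemma rgLift_e (e : E) : rgLift j u v w h (eG E x e) = j e := by
  unfold rgLift eG
  rw [RingHom.comp_apply, qLift_C]
  simp

lemma rgLift_u : rgLift j u v w h (uG E x) = u := by
  unfold rgLift uG
  rw [qLift_C]
  simp

lemma rgLift_v : rgLift j u v w h (vG E x) = v := by
  unfold rgLift vG
  rw [qLift_C]
  simp

lemma rgLift_w : rgLift j u v w h (wG E x) = w := by
  unfold rgLift wG
  rw [qLift_qw]

lemma rg_hom_ext (a b : RG E x →+* T) (h1 : ∀ e : E, a (eG E x e) = b (eG E x e))
    (h2 : a (uG E x) = b (uG E x)) (h3 : a (vG E x) = b (vG E x)) (h4 : a (wG E x) = b (wG E x)) : a = b := by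
  apply q_hom_ext
  · have : a.comp (algebraMap E[X][X] (RG E x)) = b.comp (algebraMap E[X][X] (RG E x)) := by
      apply Polynomial.ringHom_ext
      · intro p
        have h5 : (a.comp (algebraMap E[X][X] (RG E x))).comp C = (b.comp (algebraMap E[X][X] (RG E x))).comp C := by
          apply Polynomial.ringHom_ext
          · intro e
            exact h1 e
          · exact h2
        exact congrArg (fun f => f p) h5
      · exact h3
    intro c
    exact congrArg (fun f => f c) this
  · exact h4

end

lemma trailingCoeff_mul' {D : Type*} [CommRing D] [IsDomain D] (p q : D[X]) :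
    (p * q).trailingCoeff = p.trailingCoeff * q.trailingCoeff := by
  by_cases hp : p = 0
  · simp [hp]
  by_cases hq : q = 0
  · simp [hq]
  unfold Polynomial.trailingCoeff
  rw [natTrailingDegree_mul hp hq, coeff_mul_natTrailingDegree_add_natTrailingDegree]
  rfl

lemma NS_of_trailing {D : Type*} [CommRing D] [IsDomain D] (f : D[X]) (hf : NS (f.coeff 0)) : NS f := by
  have h0 : f.coeff 0 ≠ 0 := by
    intro h
    exact one_ne_zero (hf 0 1 (by rw [h]; ring))
  intro u v h
  have h1 := congrArg trailingCoeff h
  rw [pow_two, pow_two, trailingCoeff_mul', trailingCoeff_mul', trailingCoeff_mul',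
    trailingCoeff_eq_coeff_zero h0, ← pow_two, ← pow_two] at h1
  exact trailingCoeff_eq_zero.mp (hf _ _ h1)

/-- an element of odd degree is not a square -/
lemma NS_of_odd {D : Type*} [CommRing D] [IsDomain D] (f : D[X]) (hf : Odd f.natDegree) : NS f := by
  have h0 : f ≠ 0 := by
    rintro rfl
    simp at hf
  intro u v h
  by_contra hv
  have h1 := congrArg natDegree h
  rw [natDegree_pow, natDegree_mul h0 (pow_ne_zero 2 hv), natDegree_pow] at h1
  obtain ⟨k, hk⟩ := hf
  omega

section
variable (E : Type) [CommRing E] [IsDomain E] (x : E)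

lemma NS_dG (hx : x ≠ 0) : NS (dG E x) := by
  apply NS_of_trailing
  have h1 : (dG E x).coeff 0 = C x * (X ^ 4 + X ^ 5) := by
    unfold dG
    rw [coeff_zero_eq_eval_zero]
    simp only [eval_mul, eval_C, eval_add, eval_pow, eval_sub, eval_X]
    ring
  rw [h1]
  apply NS_of_odd
  have h2 : (C x * (X ^ 4 + X ^ 5) : E[X]).natDegree = 5 := by
    rw [natDegree_C_mul hx]
    compute_degree!
  rw [h2]
  decide

lemma isDomain_RG (hx : x ≠ 0) : IsDomain (RG E x) := isDomain_of_NS _ (NS_dG E x hx)

end

end H45.PC
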