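import Mathlib
import Pool.Agent.H45.CH0Quad
set_option autoImplicit false

/-! # SM: the second chart is smooth

`BG E = E[v, σ][ω] / (ω ^ 2 = (σ ^ 2 - 1) ^ 2 + σ ^ 5 v)`, `v = C X`, `σ = X`, is a smooth `E`-algebra if `2` is a unit.

Proof.  Finite presentation: `QuadraticAlgebra R a 0` is finite and free over `R` (see `Pool.Agent.H45.CH0Sm` for examples of
instances), or it is `AdjoinRoot`; e.g. `Algebra.FinitePresentation` of `E[X][X]` and of a finite free algebra over it,
then `Algebra.FinitePresentation.trans`.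
Formal smoothness (`Algebra.FormallySmooth.of_comp_surjective` or the definition: every `E`-algebra homomorphism
`g : BG E →ₐ[E] T ⧸ I` with `I ^ 2 = ⊥` lifts to `T`): choose lifts `v, σ, ω` of the images of the generators,
`ε = ω ^ 2 - (σ ^ 2 - 1) ^ 2 - σ ^ 5 v ∈ I`.  One has the identity
`(1 + 2 σ ^ 2 + 3 σ ^ 4) (σ ^ 2 - 1) ^ 2 + (4 σ - 3 σ ^ 3) σ ^ 5 = 1`, so with `A = 1 + 2 σ ^ 2 + 3 σ ^ 4`,
`B = 4 σ - 3 σ ^ 3`: `A (ω ^ 2 - σ ^ 5 v - ε) + B σ ^ 5 = 1`, that is
`A ω * ω + (B - A v) * σ ^ 5 = 1 + A ε`.  Put `ω' = ω - (A ω / 2) ε`, `v' = v + (B - A v) ε`.  Then, `ε ^ 2 = 0`,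
`ω' ^ 2 - (σ ^ 2 - 1) ^ 2 - σ ^ 5 v' = ε - A ω ^ 2 ε - σ ^ 5 (B - A v) ε = ε (1 - (1 + A ε)) = 0`.
So there is a homomorphism with `v ↦ v'`, `σ ↦ σ`, `ω ↦ ω'` (`qLift` over `eval₂RingHom (eval₂RingHom (algebraMap E T) v') σ`,
made an `E`-algebra homomorphism), and it lifts `g` (compare on generators, `q_hom_ext` and `Polynomial.ringHom_ext`). -/

namespace H45.PC
open Polynomial H45.CH0

/-- the equation of the second chart -/
noncomputable def dB (E : Type) [CommRing E] : E[X][X] := (X ^ 2 - 1) ^ 2 + X ^ 5 * C X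

/-- the coordinate ring of the second chart -/
abbrev BG (E : Type) [CommRing E] : Type := QuadraticAlgebra E[X][X] (dB E) 0

theorem SM_key {T : Type*} [CommRing T] (v s w h : T) (hh : 2 * h = 1)
    (he : (w ^ 2 - (s ^ 2 - 1) ^ 2 - s ^ 5 * v) ^ 2 = 0) :
    (w - (1 + 2 * s ^ 2 + 3 * s ^ 4) * w * h * (w ^ 2 - (s ^ 2 - 1) ^ 2 - s ^ 5 * v)) ^ 2 =
      (s ^ 2 - 1) ^ 2 + s ^ 5 * (v + ((4 * s - 3 * s ^ 3) - (1 + 2 * s ^ 2 + 3 * s ^ 4) * v) *
        (w ^ 2 - (s ^ 2 - 1) ^ 2 - s ^ 5 * v)) := by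
  linear_combination ((1 + 2 * s ^ 2 + 3 * s ^ 4) ^ 2 * w ^ 2 * h ^ 2 - (1 + 2 * s ^ 2 + 3 * s ^ 4)) * he -
    ((1 + 2 * s ^ 2 + 3 * s ^ 4) * w ^ 2 * (w ^ 2 - (s ^ 2 - 1) ^ 2 - s ^ 5 * v)) * hh

theorem SM_smooth (E : Type) [CommRing E] (h2 : IsUnit (2 : E)) : Algebra.FormallySmooth E (BG E) := by
  obtain ⟨h, hh⟩ := h2.exists_right_inv
  refine Algebra.FormallySmooth.of_comp_surjective ?_
  intro T _ _ I hI g
  obtain ⟨v, hv⟩ := Ideal.Quotient.mk_surjective (I := I) (g (algebraMap E[X][X] (BG E) (C X)))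
  obtain ⟨s, hs⟩ := Ideal.Quotient.mk_surjective (I := I) (g (algebraMap E[X][X] (BG E) X))
  obtain ⟨w, hw⟩ := Ideal.Quotient.mk_surjective (I := I) (g (qw (dB E)))
  have hmem : (w ^ 2 - (s ^ 2 - 1) ^ 2 - s ^ 5 * v) ∈ I := by
    rw [← Ideal.Quotient.eq_zero_iff_mem]
    have hF : ∀ F : E[X][X] →+* T ⧸ I, F (dB E) = (F X ^ 2 - 1) ^ 2 + F X ^ 5 * F (C X) := by
      intro F
      unfold dB
      simp only [map_sub, map_mul, map_pow, map_one, map_add]
    have hF1 := hF (((g : BG E →ₐ[E] T ⧸ I) : BG E →+* T ⧸ I).comp (algebraMap E[X][X] (BG E)))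
    simp only [RingHom.comp_apply, RingHom.coe_coe] at hF1
    simp only [map_sub, map_mul, map_pow, map_one]
    rw [hv, hs, hw, ← map_pow, qw_sq, hF1]
    ring
  have he : (w ^ 2 - (s ^ 2 - 1) ^ 2 - s ^ 5 * v) ^ 2 = 0 := by
    have := Ideal.pow_mem_pow hmem 2
    rw [hI] at this
    exact this
  have hh' : 2 * algebraMap E T h = 1 := by
    have := congrArg (algebraMap E T) hh
    rw [map_mul, map_one, map_ofNat] at this
    exact this
  have hkey := SM_key v s w (algebraMap E T h) hh' he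
  have hz := (Ideal.Quotient.eq_zero_iff_mem (I := I)).2 hmem
  generalize (w ^ 2 - (s ^ 2 - 1) ^ 2 - s ^ 5 * v) = e at *
  let f : E[X][X] →+* T := eval₂RingHom (eval₂RingHom (algebraMap E T)
    (v + ((4 * s - 3 * s ^ 3) - (1 + 2 * s ^ 2 + 3 * s ^ 4) * v) * e)) s
  have hfX : f X = s := by simp [f]
  have hfCX : f (C X) = v + ((4 * s - 3 * s ^ 3) - (1 + 2 * s ^ 2 + 3 * s ^ 4) * v) * e := by simp [f]
  have hfC : ∀ c : E, f (C (C c)) = algebraMap E T c := by intro c; simp [f]
  have hfd : (w - (1 + 2 * s ^ 2 + 3 * s ^ 4) * w * (algebraMap E T h) * e) ^ 2 = f (dB E) := by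
    unfold dB
    rw [map_add, map_mul, map_pow, map_pow, map_sub, map_pow, map_one, hfX, hfCX]
    exact hkey
  let G : BG E →ₐ[E] T :=
    { qLift f (w - (1 + 2 * s ^ 2 + 3 * s ^ 4) * w * (algebraMap E T h) * e) hfd with
      commutes' := by
        intro r
        have h1 : algebraMap E (BG E) r = algebraMap E[X][X] (BG E) (C (C r)) := by
          rw [IsScalarTower.algebraMap_apply E E[X][X] (BG E)]
          rfl
        change qLift f _ hfd (algebraMap E (BG E) r) = algebraMap E T r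
        rw [h1, qLift_C, hfC] }
  refine ⟨G, ?_⟩
  apply AlgHom.coe_ringHom_injective
  apply q_hom_ext
  · intro c
    have : (((Ideal.Quotient.mkₐ E I).comp G : BG E →ₐ[E] T ⧸ I) : BG E →+* T ⧸ I).comp
        (algebraMap E[X][X] (BG E)) = ((g : BG E →ₐ[E] T ⧸ I) : BG E →+* T ⧸ I).comp
        (algebraMap E[X][X] (BG E)) := by
      apply Polynomial.ringHom_ext
      · intro q
        have : ((((Ideal.Quotient.mkₐ E I).comp G : BG E →ₐ[E] T ⧸ I) : BG E →+* T ⧸ I).comp
            (algebraMap E[X][X] (BG E))).comp (C : E[X] →+* E[X][X]) =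
            (((g : BG E →ₐ[E] T ⧸ I) : BG E →+* T ⧸ I).comp
            (algebraMap E[X][X] (BG E))).comp (C : E[X] →+* E[X][X]) := by
          apply Polynomial.ringHom_ext
          · intro r
            have h1 : algebraMap E (BG E) r = algebraMap E[X][X] (BG E) (C (C r)) := by
              rw [IsScalarTower.algebraMap_apply E E[X][X] (BG E)]
              rfl
            simp only [RingHom.comp_apply, RingHom.coe_coe]
            rw [← h1, AlgHom.commutes, AlgHom.commutes]
          · simp only [RingHom.comp_apply, RingHom.coe_coe, AlgHom.comp_apply]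
            change Ideal.Quotient.mk I (qLift f _ hfd (algebraMap E[X][X] (BG E) (C X))) = _
            rw [qLift_C, hfCX, ← hv, map_add, map_mul, hz, mul_zero, add_zero]
        exact congrArg (fun f => f q) this
      · simp only [RingHom.comp_apply, RingHom.coe_coe, AlgHom.comp_apply]
        change Ideal.Quotient.mk I (qLift f _ hfd (algebraMap E[X][X] (BG E) X)) = _
        rw [qLift_C, hfX, hs]
    exact congrArg (fun f => f c) this
  · simp only [RingHom.coe_coe, AlgHom.comp_apply]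
    change Ideal.Quotient.mk I (qLift f _ hfd (qw (dB E))) = _
    rw [qLift_qw, ← hw, map_sub, map_mul, hz, mul_zero, sub_zero]

theorem smooth_BG (E : Type) [CommRing E] (h2 : IsUnit (2 : E)) : Algebra.Smooth E (BG E) := by
  have h1 := SM_smooth E h2
  have h31 : Module.FinitePresentation E[X][X] (BG E) := Module.finitePresentation_of_projective _ _
  have h3 : Algebra.FinitePresentation E[X][X] (BG E) := Algebra.FinitePresentation.of_finitePresentation _ _
  have h4 : Algebra.FinitePresentation E E[X][X] := by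
    have h5 : Algebra.FinitePresentation E E[X] := inferInstance
    have h6 : Algebra.FinitePresentation E[X] E[X][X] := inferInstance
    exact Algebra.FinitePresentation.trans E E[X] E[X][X]
  have h7 : Algebra.FinitePresentation E (BG E) := Algebra.FinitePresentation.trans E E[X][X] (BG E)
  exact ⟨inferInstance, inferInstance⟩

end H45.PC
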