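import Mathlib
import Pool.Agent.H45.PC.RG
import Pool.Agent.H45.PC.SM
set_option autoImplicit false

/-! # The two charts of the resolution -/

namespace H45.PC
open Polynomial H45.CH0

section
variable (E : Type) [CommRing E]

/-- the coordinate ring of the first chart, `ω = C X`, `ρ = X` -/
abbrev AG : Type := E[X][X]

/-- `u` on the first chart -/
noncomputable def u1 : AG E := (C X) ^ 2 - (1 - X ^ 2) ^ 2

/-- the first chart of the resolution -/
noncomputable def φ1 : RG E 1 →+* AG E := rgLift ((C : E[X] →+* E[X][X]).comp (C : E →+* E[X]))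
  (u1 E) (X * u1 E) (C X * (u1 E) ^ 2) (by
    rw [map_one]
    have h : (C X : E[X][X]) ^ 2 = u1 E + (1 - X ^ 2) ^ 2 := by unfold u1; ring
    obtain ⟨u, hu⟩ : ∃ u, u = u1 E := ⟨_, rfl⟩
    rw [← hu] at h ⊢
    linear_combination u ^ 4 * h)

/-- constants -/
noncomputable def eB : E →+* BG E := (algebraMap E[X][X] (BG E)).comp ((C : E[X] →+* E[X][X]).comp (C : E →+* E[X]))
/-- the function `v` on the second chart -/
noncomputable def vB : BG E := algebraMap E[X][X] (BG E) (C X)
/-- the function `σ` on the second chart -/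
noncomputable def σB : BG E := algebraMap E[X][X] (BG E) X
/-- the function `ω` on the second chart -/
noncomputable def ωB : BG E := qw (dB E)

lemma ωB_sq : (ωB E) ^ 2 = ((σB E) ^ 2 - 1) ^ 2 + (σB E) ^ 5 * vB E := by
  unfold ωB
  rw [qw_sq]
  change algebraMap E[X][X] (BG E) ((X ^ 2 - 1) ^ 2 + X ^ 5 * C X) = _
  rw [map_add, map_pow, map_sub, map_mul, map_pow, map_pow, map_one]
  rfl

section
variable {E} {T : Type} [CommRing T] (j : E →+* T) (v σ ω : T) (h : ω ^ 2 = (σ ^ 2 - 1) ^ 2 + σ ^ 5 * v)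

/-- construction of homomorphisms from `BG` -/
noncomputable def bgLift : BG E →+* T :=
  qLift (eval₂RingHom (eval₂RingHom j v) σ) ω (by
    rw [h]
    simp only [dB, map_mul, map_add, map_sub, map_pow, map_one, coe_eval₂RingHom, eval₂_C, eval₂_X])

lemma bgLift_e (e : E) : bgLift j v σ ω h (eB E e) = j e := by
  unfold bgLift eB
  rw [RingHom.comp_apply, qLift_C]
  simp

lemma bgLift_v : bgLift j v σ ω h (vB E) = v := by
  unfold bgLift vB
  rw [qLift_C]
  simp

lemma bgLift_σ : bgLift j v σ ω h (σB E) = σ := by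
  unfold bgLift σB
  rw [qLift_C]
  simp

lemma bgLift_ω : bgLift j v σ ω h (ωB E) = ω := by
  unfold bgLift ωB
  rw [qLift_qw]

lemma bg_hom_ext (a b : BG E →+* T) (h1 : ∀ e : E, a (eB E e) = b (eB E e))
    (h2 : a (vB E) = b (vB E)) (h3 : a (σB E) = b (σB E)) (h4 : a (ωB E) = b (ωB E)) : a = b := by
  apply q_hom_ext
  · have : a.comp (algebraMap E[X][X] (BG E)) = b.comp (algebraMap E[X][X] (BG E)) := by
      apply Polynomial.ringHom_ext
      · intro p
        have h5 : (a.comp (algebraMap E[X][X] (BG E))).comp C = (b.comp (algebraMap E[X][X] (BG E))).comp C := by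
          apply Polynomial.ringHom_ext
          · intro e
            exact h1 e
          · exact h2
        exact congrArg (fun f => f p) h5
      · exact h3
    intro c
    exact congrArg (fun f => f c) this
  · exact h4

/-- construction of homomorphisms from `AG` -/
noncomputable def agLift (ρ : T) : AG E →+* T := eval₂RingHom (eval₂RingHom j ω) ρ

lemma agLift_e (ρ : T) (e : E) : agLift j ω ρ (C (C e)) = j e := by
  simp [agLift]

lemma agLift_ω (ρ : T) : agLift j ω ρ (C X) = ω := by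
  simp [agLift]

lemma agLift_ρ (ρ : T) : agLift j ω ρ X = ρ := by
  simp [agLift]

lemma ag_hom_ext (a b : AG E →+* T) (h1 : ∀ e : E, a (C (C e)) = b (C (C e)))
    (h2 : a (C X) = b (C X)) (h3 : a X = b X) : a = b := by
  apply Polynomial.ringHom_ext
  · intro p
    have h5 : a.comp C = b.comp C := by
      apply Polynomial.ringHom_ext
      · intro e
        exact h1 e
      · exact h2
    exact congrArg (fun f => f p) h5
  · exact h3
end

/-- the second chart of the resolution -/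
noncomputable def φ2 : RG E 1 →+* BG E := rgLift (eB E) (σB E * vB E) (vB E) (ωB E * (vB E) ^ 2) (by
    rw [map_one]
    linear_combination (vB E) ^ 4 * ωB_sq E)

/-- the intersection of the two charts -/
abbrev CG : Type := Localization.Away (X : E[X][X])

/-- first inclusion -/
noncomputable def l1 : AG E →+* CG E := algebraMap (AG E) (CG E)

/-- inverse of `ρ` -/
noncomputable def ρi : CG E := IsLocalization.Away.invSelf (X : E[X][X])

lemma ρ_ρi : l1 E X * ρi E = 1 := IsLocalization.Away.mul_invSelf (X : E[X][X])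

/-- second inclusion -/
noncomputable def l2 : BG E →+* CG E :=
  bgLift ((l1 E).comp ((C : E[X] →+* E[X][X]).comp (C : E →+* E[X]))) (l1 E (X * u1 E)) (ρi E)
    (l1 E (C X) * (ρi E) ^ 2) (by
    have h1 := ρ_ρi E
    have h : (C X : E[X][X]) ^ 2 = u1 E + (1 - X ^ 2) ^ 2 := by unfold u1; ring
    have h2 := congrArg (l1 E) h
    rw [map_pow, map_add, map_pow, map_sub, map_one, map_pow] at h2
    rw [map_mul]
    obtain ⟨u, hu⟩ : ∃ u, u = l1 E (u1 E) := ⟨_, rfl⟩
    obtain ⟨ρ, hρ⟩ : ∃ ρ, ρ = l1 E X := ⟨_, rfl⟩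
    obtain ⟨η, hη⟩ : ∃ η, η = ρi E := ⟨_, rfl⟩
    rw [← hu, ← hρ] at h2
    rw [← hρ, ← hη] at h1
    rw [← hu, ← hρ, ← hη]
    have e1 : (1 - ρ ^ 2) ^ 2 * η ^ 4 = (η ^ 2 - 1) ^ 2 := by
      have : (1 - ρ ^ 2) ^ 2 * η ^ 4 = (η ^ 2 - (ρ * η) ^ 2) ^ 2 := by ring
      rw [this, h1]; ring
    have e2 : η ^ 5 * (ρ * u) = η ^ 4 * u := by
      have : η ^ 5 * (ρ * u) = η ^ 4 * u * (ρ * η) := by ring
      rw [this, h1]; ring
    rw [e2, ← e1]
    linear_combination η ^ 4 * h2)

lemma l1_φ1 : (l1 E).comp (φ1 E) = (l2 E).comp (φ2 E) := by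
  have h1 := ρ_ρi E
  apply rg_hom_ext
  · intro e
    unfold φ1 φ2 l2
    rw [RingHom.comp_apply, RingHom.comp_apply, rgLift_e, rgLift_e, bgLift_e]
    rfl
  · unfold φ1 φ2 l2
    rw [RingHom.comp_apply, RingHom.comp_apply, rgLift_u, rgLift_u, map_mul, bgLift_σ, bgLift_v, map_mul]
    linear_combination (-l1 E (u1 E)) * h1
  · unfold φ1 φ2 l2
    rw [RingHom.comp_apply, RingHom.comp_apply, rgLift_v, rgLift_v, bgLift_v]
  · unfold φ1 φ2 l2
    rw [RingHom.comp_apply, RingHom.comp_apply, rgLift_w, rgLift_w, map_mul, map_pow, map_mul, map_pow, bgLift_ω,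
      bgLift_v, map_mul]
    obtain ⟨u, hu⟩ : ∃ u, u = l1 E (u1 E) := ⟨_, rfl⟩
    obtain ⟨ρ, hρ⟩ : ∃ ρ, ρ = l1 E X := ⟨_, rfl⟩
    rw [← hρ] at h1
    rw [← hu, ← hρ]
    linear_combination (-(l1 E (C X : E[X][X])) * u ^ 2 * (ρ * ρi E + 1)) * h1

lemma l1ρ_l2σ : l1 E X * l2 E (σB E) = 1 := by
  unfold l2
  rw [bgLift_σ, ρ_ρi]

/-- the second chart minus a curve -/
abbrev CH : Type := Localization.Away (σB E)

lemma isUnit_l2σ : IsUnit (l2 E (σB E)) := IsUnit.of_mul_eq_one_right _ (l1ρ_l2σ E)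

/-- comparison map -/
noncomputable def m2 : CH E →+* CG E := IsLocalization.Away.lift (σB E) (isUnit_l2σ E)

lemma m2_alg (b : BG E) : m2 E (algebraMap (BG E) (CH E) b) = l2 E b := by
  unfold m2
  rw [IsLocalization.Away.lift_eq]

/-- inverse of `σ` -/
noncomputable def σi : CH E := IsLocalization.Away.invSelf (σB E)

lemma σ_σi : algebraMap (BG E) (CH E) (σB E) * σi E = 1 := IsLocalization.Away.mul_invSelf (σB E)

/-- comparison map -/
noncomputable def m1' : AG E →+* CH E := agLift ((algebraMap (BG E) (CH E)).comp (eB E))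
  (algebraMap (BG E) (CH E) (ωB E) * (σi E) ^ 2) (σi E)

lemma m1'_ρ : m1' E X = σi E := by
  unfold m1'
  rw [agLift_ρ]

lemma m1'_u : m1' E (u1 E) = algebraMap (BG E) (CH E) (σB E * vB E) := by
  have h1 := σ_σi E
  have h2 := congrArg (algebraMap (BG E) (CH E)) (ωB_sq E)
  unfold u1 m1'
  rw [map_sub, map_pow, map_pow, map_sub, map_one, map_pow, agLift_ω, agLift_ρ, map_mul]
  rw [map_pow, map_add, map_pow, map_sub, map_pow, map_one, map_mul, map_pow] at h2
  obtain ⟨σ, hσ⟩ : ∃ σ, σ = algebraMap (BG E) (CH E) (σB E) := ⟨_, rfl⟩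
  obtain ⟨η, hη⟩ : ∃ η, η = σi E := ⟨_, rfl⟩
  obtain ⟨ω, hω⟩ : ∃ ω, ω = algebraMap (BG E) (CH E) (ωB E) := ⟨_, rfl⟩
  obtain ⟨v, hv⟩ : ∃ v, v = algebraMap (BG E) (CH E) (vB E) := ⟨_, rfl⟩
  rw [← hσ, ← hη] at h1
  rw [← hσ, ← hω, ← hv] at h2
  rw [← hσ, ← hω, ← hv, ← hη]
  have e1 : (1 - η ^ 2) ^ 2 = (σ ^ 2 - 1) ^ 2 * η ^ 4 := by
    have : (σ ^ 2 - 1) ^ 2 * η ^ 4 = ((σ * η) ^ 2 - η ^ 2) ^ 2 := by ring
    rw [this, h1]; ring
  have e2 : σ * v = σ ^ 5 * v * η ^ 4 := by
    have : σ ^ 5 * v * η ^ 4 = σ * v * (σ * η) ^ 4 := by ring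
    rw [this, h1]; ring
  rw [e1, e2]
  linear_combination η ^ 4 * h2

lemma isUnit_m1' : IsUnit (m1' E X) := by
  rw [m1'_ρ]
  exact IsUnit.of_mul_eq_one_right _ (σ_σi E)

/-- comparison map -/
noncomputable def m1 : CG E →+* CH E := IsLocalization.Away.lift (X : E[X][X]) (isUnit_m1' E)

lemma m1_l1 (a : AG E) : m1 E (l1 E a) = m1' E a := by
  unfold m1 l1
  rw [IsLocalization.Away.lift_eq]

lemma inv_unique {T : Type} [CommRing T] {a b c : T} (h1 : a * b = 1) (h2 : a * c = 1) : b = c := by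
  calc b = b * (a * c) := by rw [h2, mul_one]
    _ = (a * b) * c := by ring
    _ = c := by rw [h1, one_mul]

lemma m1_ρi : m1 E (ρi E) = algebraMap (BG E) (CH E) (σB E) := by
  have h1 := congrArg (m1 E) (ρ_ρi E)
  rw [map_mul, m1_l1, map_one, m1'_ρ] at h1
  have h2 := σ_σi E
  rw [mul_comm] at h2
  exact inv_unique h1 h2

lemma m2_m1 (z : CG E) : m2 E (m1 E z) = z := by
  have h : (m2 E).comp (m1 E) = RingHom.id (CG E) := by
    apply IsLocalization.ringHom_ext (Submonoid.powers (X : E[X][X]))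
    have hσ : m2 E (σi E) = l1 E X := by
      have h1 := congrArg (m2 E) (σ_σi E)
      rw [map_mul, m2_alg, map_one] at h1
      have h2 := l1ρ_l2σ E
      rw [mul_comm] at h2
      exact inv_unique h1 h2
    apply ag_hom_ext
    · intro e
      change m2 E (m1 E (l1 E (C (C e)))) = l1 E (C (C e))
      rw [m1_l1]
      unfold m1'
      rw [agLift_e, RingHom.comp_apply, m2_alg]
      unfold l2
      rw [bgLift_e]
      rfl
    · change m2 E (m1 E (l1 E (C X))) = l1 E (C X)
      rw [m1_l1]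
      unfold m1'
      rw [agLift_ω, map_mul, map_pow, m2_alg, hσ]
      unfold l2
      rw [bgLift_ω]
      have h3 := ρ_ρi E
      linear_combination (l1 E (C X) * (l1 E X * ρi E + 1)) * h3
    · change m2 E (m1 E (l1 E X)) = l1 E X
      rw [m1_l1, m1'_ρ, hσ]
  exact congrArg (fun f => f z) h

lemma m1_m2 (z : CH E) : m1 E (m2 E z) = z := by
  have h : (m1 E).comp (m2 E) = RingHom.id (CH E) := by
    apply IsLocalization.ringHom_ext (Submonoid.powers (σB E))
    apply bg_hom_ext
    · intro e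
      change m1 E (m2 E (algebraMap (BG E) (CH E) (eB E e))) = algebraMap (BG E) (CH E) (eB E e)
      rw [m2_alg]
      unfold l2
      rw [bgLift_e, RingHom.comp_apply, m1_l1]
      unfold m1'
      rw [RingHom.comp_apply, agLift_e]
      rfl
    · change m1 E (m2 E (algebraMap (BG E) (CH E) (vB E))) = algebraMap (BG E) (CH E) (vB E)
      rw [m2_alg]
      unfold l2
      rw [bgLift_v, m1_l1, map_mul, m1'_u, m1'_ρ, map_mul]
      have h3 := σ_σi E
      linear_combination (algebraMap (BG E) (CH E) (vB E)) * h3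
    · change m1 E (m2 E (algebraMap (BG E) (CH E) (σB E))) = algebraMap (BG E) (CH E) (σB E)
      rw [m2_alg]
      unfold l2
      rw [bgLift_σ, m1_ρi]
    · change m1 E (m2 E (algebraMap (BG E) (CH E) (ωB E))) = algebraMap (BG E) (CH E) (ωB E)
      rw [m2_alg]
      unfold l2
      rw [bgLift_ω, map_mul, map_pow, m1_ρi, m1_l1]
      unfold m1'
      rw [agLift_ω]
      have h3 := σ_σi E
      linear_combination (algebraMap (BG E) (CH E) (ωB E) * (algebraMap (BG E) (CH E) (σB E) * σi E + 1)) * h3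
  exact congrArg (fun f => f z) h

/-- comparison of the two descriptions of the intersection of the charts -/
noncomputable def eC : CH E ≃+* CG E := RingEquiv.ofRingHom (m2 E) (m1 E) (RingHom.ext (m2_m1 E)) (RingHom.ext (m1_m2 E))

lemma away_l2 : @IsLocalization.Away (BG E) _ (σB E) (CG E) _ (l2 E).toAlgebra := by
  let _ : Algebra (BG E) (CG E) := (l2 E).toAlgebra
  let e : CH E ≃ₐ[BG E] CG E := AlgEquiv.ofRingEquiv (f := eC E) (fun b => m2_alg E b)
  exact IsLocalization.isLocalization_of_algEquiv (Submonoid.powers (σB E)) e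

lemma away_l1 : @IsLocalization.Away (AG E) _ X (CG E) _ (l1 E).toAlgebra := by
  have h : (l1 E).toAlgebra = (inferInstance : Algebra (AG E) (CG E)) := by
    apply Algebra.algebra_ext
    intro r
    rfl
  rw [h]
  infer_instance

end

end H45.PC
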