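import Mathlib
set_option autoImplicit false

/-! # GL: two affine schemes glued along a basic open set, properness

`VG l1 l2` is the pushout of the open immersions `Spec B12 → Spec B1`, `Spec B12 → Spec B2`, where `B12` is the
localization of `B1` away from `ρ` and of `B2` away from `σ`, and `ρ σ = 1` in `B12`.  `glue_proper`: the morphism to `Spec R0`
is proper by the valuative criterion.

Facts about the pushout (Mathlib, file `AlgebraicGeometry/Gluing.lean`, section `IsLocallyDirected`, for `span f g`):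
`Scheme.IsLocallyDirected.ι_jointly_surjective`, `Scheme.IsLocallyDirected.ι_eq_ι_iff`,
`Scheme.IsLocallyDirected.openCover`, the instance `IsOpenImmersion (colimit.ι F i)`.

Proof of `glue_proper` (`IsProper.of_valuativeCriterion`).  `f` is locally of finite type (local at the source, charts
`φ1`, `φ2`, `φ1 ≫ l1`); `VG` is compact (two affine charts); it is locally noetherian because `R0` is noetherian
(`LocallyOfFiniteType.isLocallyNoetherian`), so quasi-separated.  Valuative criterion: `R` valuation ring, `K` its fraction field.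
Existence: the point of `Spec K` lies in one of the charts, say the first, so `i₁ = Spec g ≫ j1`, `g : B1 → K`, and
`g ∘ φ1` lands in `R`.  If `g ρ ∈ R` then `g` lands in `R` by `hi1`, which gives the lift.  Otherwise `g ρ ≠ 0` and
`(g ρ)⁻¹ ∈ R` (`ValuationRing`), `g` extends to `g' : B12 → K`, let `g2 = g' ∘ l2 : B2 → K`; `g2 σ = (g ρ)⁻¹ ∈ R` and
`g2 ∘ φ2 = g ∘ φ1`, so `g2` lands in `R` by `hi2`; the lift goes through the second chart.  The other case is symmetric.
Uniqueness: let `l, l'` be two lifts.  The closed point of `Spec R` is mapped by `l` in the range of `j_a`, hence all of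
`Spec R` is (every open set containing the closed point is everything); so `l = Spec λ ≫ j_a`, `λ : B_a → R`; similarly
`l' = Spec λ' ≫ j_b`.  If `a = b` then `λ` and `λ'` agree in `K` (`j_a` is a monomorphism), so `λ = λ'`.  If `a = 1`,
`b = 2`: the point of `Spec K` lies in both charts, so in `Spec B12`; this shows that `λ ρ ≠ 0`, `λ' σ ≠ 0` in `K`,
and the two maps to `K` extend to the same homomorphism `B12 → K`, so `λ ρ * λ' σ = 1` in `R`; so `λ ρ`, `λ' σ` are units of
`R`, `λ` and `λ'` extend to `B12 → R`, the extensions agree in `K`, so they are equal and `l = l'`. -/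

namespace H45.PC
open AlgebraicGeometry CategoryTheory CategoryTheory.Limits

section
variable {R0 B1 B2 B12 : CommRingCat.{0}} (l1 : B1 ⟶ B12) (l2 : B2 ⟶ B12)
  [IsOpenImmersion (Spec.map l1)] [IsOpenImmersion (Spec.map l2)]

/-- two affine schemes glued along a common open subscheme -/
noncomputable abbrev VG : Scheme.{0} := pushout (Spec.map l1) (Spec.map l2)

instance isOpenImmersion_inl : IsOpenImmersion (pushout.inl (Spec.map l1) (Spec.map l2)) :=
  inferInstanceAs (IsOpenImmersion (colimit.ι (span (Spec.map l1) (Spec.map l2)) WalkingSpan.left))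

instance isOpenImmersion_inr : IsOpenImmersion (pushout.inr (Spec.map l1) (Spec.map l2)) :=
  inferInstanceAs (IsOpenImmersion (colimit.ι (span (Spec.map l1) (Spec.map l2)) WalkingSpan.right))

theorem glue_cover (v : VG l1 l2) : (∃ a, pushout.inl (Spec.map l1) (Spec.map l2) a = v) ∨
    (∃ b, pushout.inr (Spec.map l1) (Spec.map l2) b = v) := by
  obtain ⟨i, xi, h⟩ := Scheme.IsLocallyDirected.ι_jointly_surjective
    (span (Spec.map l1) (Spec.map l2)) v
  rcases i with _ | _ | _
  · left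
    refine ⟨(span (Spec.map l1) (Spec.map l2)).map WalkingSpan.Hom.fst xi, ?_⟩
    rw [← h]
    have hw := colimit.w (span (Spec.map l1) (Spec.map l2)) WalkingSpan.Hom.fst
    exact congrArg (fun m : (span (Spec.map l1) (Spec.map l2)).obj none ⟶ VG l1 l2 => m xi) hw
  · left
    exact ⟨xi, h⟩
  · right
    exact ⟨xi, h⟩

theorem glue_inter (a : Spec B1) (b : Spec B2)
    (h : pushout.inl (Spec.map l1) (Spec.map l2) a = pushout.inr (Spec.map l1) (Spec.map l2) b) :
    ∃ c : Spec B12, Spec.map l1 c = a ∧ Spec.map l2 c = b := by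
  obtain ⟨k, fi, fj, x, hx1, hx2⟩ := (Scheme.IsLocallyDirected.ι_eq_ι_iff
    (span (Spec.map l1) (Spec.map l2)) (i := WalkingSpan.left) (j := WalkingSpan.right)
    (xi := a) (xj := b)).1 h
  rcases k with _ | _ | _
  · have e1 : fi = WalkingSpan.Hom.fst := Subsingleton.elim _ _
    have e2 : fj = WalkingSpan.Hom.snd := Subsingleton.elim _ _
    subst e1 e2
    exact ⟨x, hx1, hx2⟩
  · exact nomatch (show WidePushoutShape.Hom (some WalkingPair.left) (some WalkingPair.right) from fj)
  · exact nomatch (show WidePushoutShape.Hom (some WalkingPair.right) (some WalkingPair.left) from fi)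

/-- a property which is local at the source can be checked on the two charts -/
theorem glue_local {P : MorphismProperty Scheme.{0}} [IsZariskiLocalAtSource P] {Y : Scheme.{0}} (f : VG l1 l2 ⟶ Y)
    (h1 : P (pushout.inl (Spec.map l1) (Spec.map l2) ≫ f)) (h2 : P (pushout.inr (Spec.map l1) (Spec.map l2) ≫ f)) :
    P f := by
  rw [IsZariskiLocalAtSource.iff_of_openCover (P := P)
    (Scheme.IsLocallyDirected.openCover (span (Spec.map l1) (Spec.map l2)))]
  intro i
  rcases i with _ | _ | _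
  · have h3 := IsZariskiLocalAtSource.comp h1 (Spec.map l1)
    have hw := colimit.w (span (Spec.map l1) (Spec.map l2)) WalkingSpan.Hom.fst
    have h4 : Spec.map l1 ≫ pushout.inl (Spec.map l1) (Spec.map l2) ≫ f =
        (Scheme.IsLocallyDirected.openCover (span (Spec.map l1) (Spec.map l2))).f none ≫ f := by
      rw [← Category.assoc]
      exact congrArg (fun m : (span (Spec.map l1) (Spec.map l2)).obj none ⟶ VG l1 l2 => m ≫ f) hw
    rw [← h4]
    exact h3
  · exact h1
  · exact h2

/-- a morphism from a local scheme whose closed point goes to an affine chart factors through it -/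
private theorem gl_factor {X : Scheme.{0}} {B : CommRingCat.{0}} (j : Spec B ⟶ X) [IsOpenImmersion j]
    {R : CommRingCat.{0}} [IsLocalRing R] (l : Spec R ⟶ X)
    (h : ∃ a, j a = l (IsLocalRing.closedPoint R)) :
    ∃ g : B ⟶ R, l = Spec.map g ≫ j := by
  obtain ⟨a, ha⟩ := h
  have h1 : l ⁻¹ᵁ j.opensRange = ⊤ :=
    Scheme.preimage_eq_top_of_closedPoint_mem (f := l) (U := j.opensRange) ⟨a, ha⟩
  have h2 : Set.range l ⊆ Set.range j := by
    rintro _ ⟨x, rfl⟩
    have h3 : x ∈ l ⁻¹ᵁ j.opensRange := by rw [h1]; trivial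
    exact h3
  refine ⟨Spec.preimage (IsOpenImmersion.lift j l h2), ?_⟩
  rw [Spec.map_preimage, IsOpenImmersion.lift_fac]

/-- the values of the chart on the base -/
private theorem gl_base {X : Scheme.{0}} {f : X ⟶ Spec R0} {B : CommRingCat.{0}} (j : Spec B ⟶ X)
    (φ : R0 ⟶ B) (hj : j ≫ f = Spec.map φ) (S : ValuativeCommSq f) (g : B ⟶ .of S.K)
    (hg : S.i₁ = Spec.map g ≫ j) :
    φ ≫ g = Spec.preimage S.i₂ ≫ CommRingCat.ofHom (algebraMap S.R S.K) := by
  apply Spec.map_injective
  rw [Spec.map_comp, Spec.map_comp, Spec.map_preimage, ← S.commSq.w, hg, Category.assoc, hj]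

private theorem gl_base' {X : Scheme.{0}} {f : X ⟶ Spec R0} {B : CommRingCat.{0}} (j : Spec B ⟶ X)
    (φ : R0 ⟶ B) (hj : j ≫ f = Spec.map φ) (S : ValuativeCommSq f) (g : B ⟶ .of S.K)
    (hg : S.i₁ = Spec.map g ≫ j) (r : R0) :
    g.hom (φ.hom r) ∈ (algebraMap S.R S.K).range := by
  have h := congrArg (fun m : R0 ⟶ .of S.K => m.hom r) (gl_base j φ hj S g hg)
  exact ⟨(Spec.preimage S.i₂).hom r, h.symm⟩

/-- the lift through a chart -/
private theorem gl_lift {X : Scheme.{0}} {f : X ⟶ Spec R0} {B : CommRingCat.{0}} (j : Spec B ⟶ X)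
    (φ : R0 ⟶ B) (hj : j ≫ f = Spec.map φ) (S : ValuativeCommSq f) (g : B ⟶ .of S.K)
    (hg : S.i₁ = Spec.map g ≫ j) (hb : ∀ b, g.hom b ∈ (algebraMap S.R S.K).range) :
    S.commSq.HasLift := by
  have hinj : Function.Injective (algebraMap S.R S.K) := IsFractionRing.injective S.R S.K
  choose t ht using hb
  let g'' : B →+* S.R :=
    { toFun := t
      map_one' := hinj (by rw [ht, map_one, map_one])
      map_mul' := fun x y => hinj (by rw [ht, map_mul, map_mul, ht, ht])
      map_zero' := hinj (by rw [ht, map_zero, map_zero])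
      map_add' := fun x y => hinj (by rw [ht, map_add, map_add, ht, ht]) }
  have hg'' : ∀ b, algebraMap S.R S.K (g'' b) = g.hom b := ht
  have h2 : CommRingCat.ofHom g'' ≫ CommRingCat.ofHom (algebraMap S.R S.K) = g := by
    ext b
    exact hg'' b
  refine ⟨⟨Spec.map (CommRingCat.ofHom g'') ≫ j, ?_, ?_⟩⟩
  · rw [← Spec.map_comp_assoc, h2, hg]
  · rw [Category.assoc, hj, ← Spec.map_comp]
    conv_rhs => rw [← Spec.map_preimage S.i₂]
    congr 1
    ext r
    apply hinj
    have h3 := congrArg (fun m : R0 ⟶ .of S.K => m.hom r) (gl_base j φ hj S g hg)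
    exact (hg'' _).trans h3

omit [IsOpenImmersion (Spec.map l1)] [IsOpenImmersion (Spec.map l2)] in
/-- existence when the generic point is in the first chart -/
private theorem gl_exist {X : Scheme.{0}} {f : X ⟶ Spec R0} (j1 : Spec B1 ⟶ X) (j2 : Spec B2 ⟶ X)
    (hj : Spec.map l1 ≫ j1 = Spec.map l2 ≫ j2) (φ1 : R0 ⟶ B1) (φ2 : R0 ⟶ B2)
    (hj1 : j1 ≫ f = Spec.map φ1) (hj2 : j2 ≫ f = Spec.map φ2) (ρ : B1) (σ : B2)
    (hρ : @IsLocalization.Away B1 _ ρ B12 _ l1.hom.toAlgebra) (hρσ : l1.hom ρ * l2.hom σ = 1)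
    (S : ValuativeCommSq f)
    (hi1 : ∀ g : B1 →+* S.K, (∀ r : R0, g (φ1.hom r) ∈ (algebraMap S.R S.K).range) →
      g ρ ∈ (algebraMap S.R S.K).range → ∀ b, g b ∈ (algebraMap S.R S.K).range)
    (hi2 : ∀ g : B2 →+* S.K, (∀ r : R0, g (φ2.hom r) ∈ (algebraMap S.R S.K).range) →
      g σ ∈ (algebraMap S.R S.K).range → ∀ b, g b ∈ (algebraMap S.R S.K).range)
    (g : B1 ⟶ .of S.K) (hg : S.i₁ = Spec.map g ≫ j1) : S.commSq.HasLift := by
  have hbase := gl_base' j1 φ1 hj1 S g hg
  by_cases h : g.hom ρ ∈ (algebraMap S.R S.K).range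
  · exact gl_lift j1 φ1 hj1 S g hg (hi1 g.hom hbase h)
  · have hne : g.hom ρ ≠ 0 := by
      intro h0
      exact h ⟨0, by rw [map_zero, h0]⟩
    have hinv : (g.hom ρ)⁻¹ ∈ (algebraMap S.R S.K).range := by
      rcases ValuationRing.isInteger_or_isInteger S.R (g.hom ρ) with h1 | h1
      · exact absurd h1 h
      · exact h1
    let _ : Algebra B1 B12 := l1.hom.toAlgebra
    have _ : IsLocalization.Away ρ B12 := hρ
    let g' : B12 →+* S.K := IsLocalization.Away.lift ρ (isUnit_iff_ne_zero.mpr hne)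
    have hg' : ∀ b, g' (l1.hom b) = g.hom b := fun b =>
      IsLocalization.Away.lift_eq ρ (isUnit_iff_ne_zero.mpr hne) b
    have e1 : l1 ≫ CommRingCat.ofHom g' = g := by
      ext b
      exact hg' b
    have hg2 : S.i₁ = Spec.map (l2 ≫ CommRingCat.ofHom g') ≫ j2 := by
      rw [hg, ← e1, Spec.map_comp, Spec.map_comp, Category.assoc, Category.assoc, hj]
    refine gl_lift j2 φ2 hj2 S (l2 ≫ CommRingCat.ofHom g') hg2
      (hi2 (l2 ≫ CommRingCat.ofHom g').hom (gl_base' j2 φ2 hj2 S _ hg2) ?_)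
    have h3 : g' (l2.hom σ) = (g.hom ρ)⁻¹ := by
      rw [← hg' ρ]
      apply eq_inv_of_mul_eq_one_right
      rw [← map_mul, hρσ, map_one]
    have h4 : (l2 ≫ CommRingCat.ofHom g').hom σ = g' (l2.hom σ) := rfl
    rw [h4, h3]
    exact hinv

/-- two lifts through the same chart are equal -/
private theorem gl_uniq_same {X : Scheme.{0}} {B : CommRingCat.{0}} (j : Spec B ⟶ X)
    [Mono j] {R K : CommRingCat.{0}} (α : R ⟶ K) (hα : Function.Injective α.hom) (lam lam' : B ⟶ R)
    (h : Spec.map α ≫ Spec.map lam ≫ j = Spec.map α ≫ Spec.map lam' ≫ j) : lam = lam' := by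
  rw [← Category.assoc, ← Category.assoc, cancel_mono, ← Spec.map_comp, ← Spec.map_comp] at h
  have h1 := Spec.map_injective h
  ext b
  apply hα
  exact congrArg (fun m : B ⟶ K => m.hom b) h1

/-- two lifts through different charts are equal -/
private theorem gl_uniq_cross (ρ : B1) (σ : B2)
    (hρ : @IsLocalization.Away B1 _ ρ B12 _ l1.hom.toAlgebra) (hρσ : l1.hom ρ * l2.hom σ = 1)
    {R K : CommRingCat.{0}} [Nonempty (Spec K)] (α : R ⟶ K) (hα : Function.Injective α.hom) (lam : B1 ⟶ R)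
    (lam' : B2 ⟶ R)
    (hK : ∀ x y : Spec K, x = y)
    (h : Spec.map α ≫ Spec.map lam ≫ pushout.inl (Spec.map l1) (Spec.map l2) =
      Spec.map α ≫ Spec.map lam' ≫ pushout.inr (Spec.map l1) (Spec.map l2)) :
    Spec.map lam ≫ pushout.inl (Spec.map l1) (Spec.map l2) =
      Spec.map lam' ≫ pushout.inr (Spec.map l1) (Spec.map l2) := by
  rw [← Category.assoc, ← Category.assoc, ← Spec.map_comp, ← Spec.map_comp] at h
  obtain ⟨k0⟩ := (inferInstance : Nonempty (Spec K))
  obtain ⟨c, hc1, -⟩ := glue_inter l1 l2 (Spec.map (lam ≫ α) k0) (Spec.map (lam' ≫ α) k0)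
    (congrArg (fun m : Spec K ⟶ VG l1 l2 => m k0) h)
  have hr : Set.range (Spec.map (lam ≫ α)) ⊆ Set.range (Spec.map l1) := by
    rintro _ ⟨x, rfl⟩
    rw [hK x k0]
    exact ⟨c, hc1⟩
  let m : Spec K ⟶ Spec B12 := IsOpenImmersion.lift (Spec.map l1) (Spec.map (lam ≫ α)) hr
  have hm : m ≫ Spec.map l1 = Spec.map (lam ≫ α) := IsOpenImmersion.lift_fac _ _ _
  have e1 : l1 ≫ Spec.preimage m = lam ≫ α := by
    apply Spec.map_injective
    rw [Spec.map_comp, Spec.map_preimage, hm]
  have e2 : l2 ≫ Spec.preimage m = lam' ≫ α := by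
    apply Spec.map_injective
    rw [← cancel_mono (pushout.inr (Spec.map l1) (Spec.map l2)), ← h, Spec.map_comp,
      Spec.map_preimage, Category.assoc, ← pushout.condition, ← Category.assoc, hm]
  have hprod : lam.hom ρ * lam'.hom σ = 1 := by
    apply hα
    rw [map_mul, map_one]
    have a1 : (Spec.preimage m).hom (l1.hom ρ) = α.hom (lam.hom ρ) :=
      congrArg (fun t : B1 ⟶ K => t.hom ρ) e1
    have a2 : (Spec.preimage m).hom (l2.hom σ) = α.hom (lam'.hom σ) :=
      congrArg (fun t : B2 ⟶ K => t.hom σ) e2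
    rw [← a1, ← a2, ← map_mul, hρσ, map_one]
  have hu : IsUnit (lam.hom ρ) := IsUnit.of_mul_eq_one _ hprod
  let _ : Algebra B1 B12 := l1.hom.toAlgebra
  have _ : IsLocalization.Away ρ B12 := hρ
  let L : B12 →+* R := IsLocalization.Away.lift ρ hu
  have hL : l1 ≫ CommRingCat.ofHom L = lam := by
    ext b
    exact IsLocalization.Away.lift_eq ρ hu b
  have hLm : CommRingCat.ofHom L ≫ α = Spec.preimage m := by
    apply Spec.map_injective
    rw [← cancel_mono (Spec.map l1), ← Spec.map_comp, ← Spec.map_comp, ← Category.assoc, hL, e1]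
  have hL2 : l2 ≫ CommRingCat.ofHom L = lam' := by
    ext b
    apply hα
    have a3 : (l2 ≫ CommRingCat.ofHom L) ≫ α = lam' ≫ α := by
      rw [Category.assoc, hLm, e2]
    exact congrArg (fun t : B2 ⟶ K => t.hom b) a3
  rw [← hL, ← hL2, Spec.map_comp, Spec.map_comp, Category.assoc, Category.assoc, pushout.condition]

variable (φ1 : R0 ⟶ B1) (φ2 : R0 ⟶ B2) (hφ : φ1 ≫ l1 = φ2 ≫ l2)

/-- the morphism from the glued scheme to the base -/
noncomputable def glueMap : VG l1 l2 ⟶ Spec R0 := pushout.desc (Spec.map φ1) (Spec.map φ2) (by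
  rw [← Spec.map_comp, ← Spec.map_comp, hφ])

private theorem gl_inl : pushout.inl (Spec.map l1) (Spec.map l2) ≫ glueMap l1 l2 φ1 φ2 hφ =
    Spec.map φ1 := by
  unfold glueMap
  exact pushout.inl_desc _ _ _

private theorem gl_inr : pushout.inr (Spec.map l1) (Spec.map l2) ≫ glueMap l1 l2 φ1 φ2 hφ =
    Spec.map φ2 := by
  unfold glueMap
  exact pushout.inr_desc _ _ _

private theorem gl_compact : CompactSpace (VG l1 l2) := by
  rw [← isCompact_univ_iff]
  have h : (Set.univ : Set (VG l1 l2)) = Set.range (pushout.inl (Spec.map l1) (Spec.map l2)) ∪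
      Set.range (pushout.inr (Spec.map l1) (Spec.map l2)) := by
    symm
    rw [Set.eq_univ_iff_forall]
    intro v
    exact glue_cover l1 l2 v
  rw [h]
  exact (isCompact_range (Scheme.Hom.continuous _)).union (isCompact_range (Scheme.Hom.continuous _))

theorem glue_proper [IsNoetherianRing R0] (ρ : B1) (σ : B2)
    (hρ : @IsLocalization.Away B1 _ ρ B12 _ l1.hom.toAlgebra)
    (hσ : @IsLocalization.Away B2 _ σ B12 _ l2.hom.toAlgebra) (hρσ : l1.hom ρ * l2.hom σ = 1)
    (hf1 : φ1.hom.FiniteType) (hf2 : φ2.hom.FiniteType)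
    (hi1 : ∀ (R K : Type) [CommRing R] [IsDomain R] [ValuationRing R] [Field K] [Algebra R K] [IsFractionRing R K]
      (g : B1 →+* K), (∀ r : R0, g (φ1.hom r) ∈ (algebraMap R K).range) → g ρ ∈ (algebraMap R K).range →
        ∀ b, g b ∈ (algebraMap R K).range)
    (hi2 : ∀ (R K : Type) [CommRing R] [IsDomain R] [ValuationRing R] [Field K] [Algebra R K] [IsFractionRing R K]
      (g : B2 →+* K), (∀ r : R0, g (φ2.hom r) ∈ (algebraMap R K).range) → g σ ∈ (algebraMap R K).range →
        ∀ b, g b ∈ (algebraMap R K).range) :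
    IsProper (glueMap l1 l2 φ1 φ2 hφ) := by
  have hlft : LocallyOfFiniteType (glueMap l1 l2 φ1 φ2 hφ) := by
    have hz : IsZariskiLocalAtSource (@LocallyOfFiniteType : MorphismProperty Scheme.{0}) :=
      HasRingHomProperty.instIsZariskiLocalAtSource
    refine glue_local (P := @LocallyOfFiniteType.{0}) l1 l2 _ ?_ ?_
    · rw [gl_inl]
      exact (HasRingHomProperty.Spec_iff (P := @LocallyOfFiniteType)).mpr hf1
    · rw [gl_inr]
      exact (HasRingHomProperty.Spec_iff (P := @LocallyOfFiniteType)).mpr hf2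
  have hcomp := gl_compact l1 l2
  have hnoeth : IsLocallyNoetherian (VG l1 l2) :=
    LocallyOfFiniteType.isLocallyNoetherian (glueMap l1 l2 φ1 φ2 hφ)
  have hqc : QuasiCompact (glueMap l1 l2 φ1 φ2 hφ) := inferInstance
  have hqs : QuasiSeparated (glueMap l1 l2 φ1 φ2 hφ) := inferInstance
  refine IsProper.of_valuativeCriterion _ (ValuativeCriterion.iff.mpr ⟨?_, ?_⟩)
  · intro S
    rcases glue_cover l1 l2 (S.i₁ (IsLocalRing.closedPoint S.K)) with h | h
    · obtain ⟨g, hg⟩ := gl_factor (R := .of S.K) (pushout.inl (Spec.map l1) (Spec.map l2)) S.i₁ h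
      exact gl_exist l1 l2 _ _ pushout.condition φ1 φ2 (gl_inl l1 l2 φ1 φ2 hφ)
        (gl_inr l1 l2 φ1 φ2 hφ) ρ σ hρ hρσ S (hi1 S.R S.K) (hi2 S.R S.K) g hg
    · obtain ⟨g, hg⟩ := gl_factor (R := .of S.K) (pushout.inr (Spec.map l1) (Spec.map l2)) S.i₁ h
      exact gl_exist l2 l1 _ _ pushout.condition.symm φ2 φ1 (gl_inr l1 l2 φ1 φ2 hφ)
        (gl_inl l1 l2 φ1 φ2 hφ) σ ρ hσ (by rw [mul_comm]; exact hρσ) S (hi2 S.R S.K)
        (hi1 S.R S.K) g hg
  · intro S
    constructor
    rintro ⟨l, hl, -⟩ ⟨l', hl', -⟩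
    ext : 1
    dsimp only
    have hinj : Function.Injective (CommRingCat.ofHom (algebraMap S.R S.K)).hom :=
      IsFractionRing.injective S.R S.K
    have hK : ∀ x y : Spec (.of S.K), x = y := fun x y => Subsingleton.elim _ _
    have hll : Spec.map (CommRingCat.ofHom (algebraMap S.R S.K)) ≫ l =
        Spec.map (CommRingCat.ofHom (algebraMap S.R S.K)) ≫ l' := hl.trans hl'.symm
    rcases glue_cover l1 l2 (l (IsLocalRing.closedPoint S.R)) with h | h <;>
      rcases glue_cover l1 l2 (l' (IsLocalRing.closedPoint S.R)) with h' | h'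
    · obtain ⟨g, hg⟩ := gl_factor (R := .of S.R) _ l h
      obtain ⟨g', hg'⟩ := gl_factor (R := .of S.R) _ l' h'
      rw [hg, hg'] at hll ⊢
      rw [gl_uniq_same _ _ hinj g g' hll]
    · obtain ⟨g, hg⟩ := gl_factor (R := .of S.R) _ l h
      obtain ⟨g', hg'⟩ := gl_factor (R := .of S.R) _ l' h'
      rw [hg, hg'] at hll ⊢
      exact gl_uniq_cross l1 l2 ρ σ hρ hρσ _ hinj g g' hK hll
    · obtain ⟨g, hg⟩ := gl_factor (R := .of S.R) _ l h
      obtain ⟨g', hg'⟩ := gl_factor (R := .of S.R) _ l' h'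
      rw [hg, hg'] at hll ⊢
      exact (gl_uniq_cross l1 l2 ρ σ hρ hρσ _ hinj g' g hK hll.symm).symm
    · obtain ⟨g, hg⟩ := gl_factor (R := .of S.R) _ l h
      obtain ⟨g', hg'⟩ := gl_factor (R := .of S.R) _ l' h'
      rw [hg, hg'] at hll ⊢
      rw [gl_uniq_same _ _ hinj g g' hll]

end
end H45.PC
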