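import Mathlib
import Pool.Agent.H45.CH0All
set_option autoImplicit false

/-! # Zero-cycles on a variety covered by affine lines -/

namespace H45.PC
open AlgebraicGeometry CategoryTheory CategoryTheory.Limits Polynomial H45.CH0

section
variable {F : Type} [Field F] {κ : Type} [Field κ] (v : F →+* κ) (hv : v.Finite)

include hv in
lemma finite_poly_gen (P : κ[X])
    (hX : (eval₂RingHom ((C : κ →+* κ[X]).comp v) P).IsIntegralElem X) :
    (eval₂RingHom ((C : κ →+* κ[X]).comp v) P).Finite := by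
  let alg : Algebra F[X] κ[X] := (eval₂RingHom ((C : κ →+* κ[X]).comp v) P).toAlgebra
  apply RingHom.IsIntegral.to_finite
  · have h1 : ∀ z : κ, (eval₂RingHom ((C : κ →+* κ[X]).comp v) P).IsIntegralElem (C z) := by
      intro z
      obtain ⟨Q, hQ, hz⟩ := hv.to_isIntegral z
      refine ⟨Q.map C, hQ.map C, ?_⟩
      rw [eval₂_map]
      have h2 : (eval₂RingHom ((C : κ →+* κ[X]).comp v) P).comp C = (C : κ →+* κ[X]).comp v := by
        ext a; simp
      rw [h2, ← Polynomial.hom_eval₂, hz, map_zero]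
    intro z
    induction z using Polynomial.induction_on with
    | C a => exact h1 a
    | add p q hp hq => exact hp.add _ hq
    | monomial n a h =>
      have e : C a * X ^ (n + 1) = C a * X ^ n * X := by ring
      rw [e]
      exact h.mul _ hX
  · have h1 : ((C : κ →+* κ[X]).comp v).FiniteType := by
      apply RingHom.FiniteType.comp
      · have : Algebra.FiniteType κ κ[X] := inferInstance
        exact (RingHom.finiteType_algebraMap).mpr this
      · exact hv.finiteType
    have h2 : (eval₂RingHom ((C : κ →+* κ[X]).comp v) P).comp C = (C : κ →+* κ[X]).comp v := by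
      ext a; simp
    rw [← h2] at h1
    exact RingHom.FiniteType.of_comp_finiteType h1

include hv in
lemma finite_poly_X : (eval₂RingHom ((C : κ →+* κ[X]).comp v) X).Finite := by
  apply finite_poly_gen v hv
  exact ⟨X - C X, monic_X_sub_C X, by simp⟩

include hv in
lemma finite_poly_sq (c : κ) : (eval₂RingHom ((C : κ →+* κ[X]).comp v) (X ^ 2 - C c)).Finite := by
  apply finite_poly_gen v hv
  have h1 : (eval₂RingHom ((C : κ →+* κ[X]).comp v) (X ^ 2 - C c)).IsIntegralElem (C c) := by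
    obtain ⟨Q, hQ, hz⟩ := hv.to_isIntegral c
    refine ⟨Q.map C, hQ.map C, ?_⟩
    rw [eval₂_map]
    have h2 : (eval₂RingHom ((C : κ →+* κ[X]).comp v) (X ^ 2 - C c)).comp C = (C : κ →+* κ[X]).comp v := by
      ext a; simp
    rw [h2, ← Polynomial.hom_eval₂, hz, map_zero]
  have h2 : (eval₂RingHom ((C : κ →+* κ[X]).comp v) (X ^ 2 - C c)).IsIntegralElem (X ^ 2 - C c) :=
    ⟨X - C X, monic_X_sub_C X, by simp⟩
  have h3 := h1.add _ h2
  have e : C c + (X ^ 2 - C c) = (X : κ[X]) ^ 2 := by ring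
  rw [e] at h3
  let alg : Algebra F[X] κ[X] := (eval₂RingHom ((C : κ →+* κ[X]).comp v) (X ^ 2 - C c)).toAlgebra
  have h4 : IsIntegral F[X] ((X : κ[X]) ^ 2) := h3
  exact IsIntegral.of_pow two_pos h4

end

section
variable {F : Type} [Field F] (i : ℂ →+* F) {A : CommRingCat.{0}} (t1 t2 : A)
  {Z : Scheme.{0}} (sZ : Z ⟶ Spec (.of ℂ)) (g : Z ⟶ Spec A)
  (hline : ∀ (κ : Type) (_ : Field κ) (x : Spec (.of κ) ⟶ Z), ∃ (l : Spec (.of κ[X]) ⟶ Z) (c0 : κ) (θ : A →+* κ[X]),
    Spec.map (CommRingCat.ofHom (evalRingHom c0)) ≫ l = x ∧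
    l ≫ sZ = Spec.map (CommRingCat.ofHom (C : κ →+* κ[X])) ≫ x ≫ sZ ∧
    l ≫ g = Spec.map (CommRingCat.ofHom θ) ∧ ((∃ c : κ, θ t1 = (X ^ 2 - C c : κ[X])) ∨ θ t2 = (X : κ[X])))
  {W : Scheme.{0}} (b : W ⟶ Z) (σ : W ⟶ Spec (.of F))
  (hpb : IsPullback b σ sZ (Spec.map (CommRingCat.ofHom i)))

lemma comp_toLine (t0 : A) {κ : Type} [Field κ] (p : Spec (.of κ[X]) ⟶ W) (v : F →+* κ) (θ : A →+* κ[X])
    (h1 : p ≫ σ = Spec.map (CommRingCat.ofHom ((C : κ →+* κ[X]).comp v)))
    (h2 : p ≫ b ≫ g = Spec.map (CommRingCat.ofHom θ)) :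
    p ≫ toLine t0 (b ≫ g) σ = Spec.map (CommRingCat.ofHom (eval₂RingHom ((C : κ →+* κ[X]).comp v) (θ t0))) := by
  apply hom_ext_gam
  rw [gam_comp]
  unfold toLine
  rw [gam_toSpecΓ]
  have key : ∀ {R : CommRingCat.{0}} (ψ : R ⟶ .of κ[X]), gam (Spec.map ψ) = ψ ≫ (Scheme.ΓSpecIso _).inv := by
    intro R ψ
    have := gam_spec (𝟙 _) ψ
    rw [Category.id_comp] at this
    rw [this]
    congr 1
  rw [key]
  have e2 : gam σ ≫ p.appTop = CommRingCat.ofHom ((C : κ →+* κ[X]).comp v) ≫ (Scheme.ΓSpecIso _).inv := by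
    rw [← gam_comp, h1, key]
  have e3 : gam (b ≫ g) ≫ p.appTop = CommRingCat.ofHom θ ≫ (Scheme.ΓSpecIso _).inv := by
    rw [← gam_comp, h2, key]
  apply CommRingCat.hom_ext
  apply Polynomial.ringHom_ext
  · intro z
    have := congrArg (fun f => f.hom z) e2
    simp only [CommRingCat.hom_comp, RingHom.comp_apply, CommRingCat.hom_ofHom, coe_eval₂RingHom, eval₂_C] at this ⊢
    exact this
  · have := congrArg (fun f => f.hom t0) e3
    simp only [CommRingCat.hom_comp, RingHom.comp_apply, CommRingCat.hom_ofHom, coe_eval₂RingHom, eval₂_X] at this ⊢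
    rw [this]

include hline hpb in
lemma single_mem_Rat_line [LocallyOfFiniteType σ] [IsSeparated σ] (w : W) (hw : IsClosed ({w} : Set W)) :
    Finsupp.single w 1 ∈ Rat W := by
  obtain ⟨l, c0, θ, h1, h2, h3, h4⟩ := hline (W.residueField w) inferInstance (W.fromSpecResidueField w ≫ b)
  have hc : l ≫ sZ = Spec.map (CommRingCat.ofHom ((C : W.residueField w →+* (W.residueField w)[X]).comp (ev σ w))) ≫
      Spec.map (CommRingCat.ofHom i) := by
    rw [h2, Category.assoc, hpb.w, CommRingCat.ofHom_comp, Spec.map_comp, Category.assoc, spec_ev,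
      Category.assoc]
  let p : Spec (.of (W.residueField w)[X]) ⟶ W := hpb.lift l _ hc
  have hp1 : p ≫ b = l := hpb.lift_fst _ _ _
  have hp2 : p ≫ σ = Spec.map (CommRingCat.ofHom ((C : W.residueField w →+* (W.residueField w)[X]).comp (ev σ w))) :=
    hpb.lift_snd _ _ _
  have hp3 : p ≫ b ≫ g = Spec.map (CommRingCat.ofHom θ) := by
    rw [← Category.assoc, hp1, h3]
  have hfin : IsFinite p := by
    have hv := finite_of_isClosed σ w hw
    rcases h4 with ⟨c, hcc⟩ | hcc
    · have h5 := comp_toLine g b σ t1 p (ev σ w) θ hp2 hp3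
      have h6 : IsFinite (p ≫ toLine t1 (b ≫ g) σ) := by
        rw [h5, IsFinite.SpecMap_iff, CommRingCat.hom_ofHom, hcc]
        exact finite_poly_sq (ev σ w) hv c
      have h7 := toLine_sep t1 (b ≫ g) σ
      exact IsFinite.of_comp p (toLine t1 (b ≫ g) σ)
    · have h5 := comp_toLine g b σ t2 p (ev σ w) θ hp2 hp3
      have h6 : IsFinite (p ≫ toLine t2 (b ≫ g) σ) := by
        rw [h5, IsFinite.SpecMap_iff, CommRingCat.hom_ofHom, hcc]
        exact finite_poly_X (ev σ w) hv
      have h7 := toLine_sep t2 (b ≫ g) σ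
      exact IsFinite.of_comp p (toLine t2 (b ≫ g) σ)
  refine single_mem_Rat w p c0 ?_
  apply hpb.hom_ext
  · rw [Category.assoc, hp1, h1]
  · rw [Category.assoc, hp2, ← spec_ev, ← Spec.map_comp, ← CommRingCat.ofHom_comp]
    congr 2
    ext z
    simp

include hline hpb in
/-- all zero-cycles are rationally trivial -/
lemma all_mem_Rat_line [LocallyOfFiniteType σ] [IsSeparated σ] (z : W →₀ ℤ) (hz : IsZeroCycle z) : z ∈ Rat W := by
  classical
  rw [← Finsupp.sum_single z]
  apply AddSubgroup.sum_mem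
  intro w hw
  have h1 := single_mem_Rat_line i t1 t2 sZ g hline b σ hpb w (hz w hw)
  have h2 : Finsupp.single w (z w) = (z w) • Finsupp.single w (1 : ℤ) := by
    rw [Finsupp.smul_single, smul_eq_mul, mul_one]
  rw [h2]
  exact AddSubgroup.zsmul_mem _ h1 _

end
end H45.PC
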