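import Mathlib
import Pool.Agent.H45.CH0Ell
set_option autoImplicit false

/-! # N1: adjoining a square root to an integrally closed domain

Proof.  Let `L = FractionRing R`, `S = QuadraticAlgebra R d 0` (a domain by `isDomain_of_NS d hNS`).
Let `M = QuadraticAlgebra L (algebraMap R L d) 0`; it is a field since `d` is not a square in `L` (from `hNS`;
`NS d : ∀ u v, u ^ 2 = d * v ^ 2 → v = 0`), and it is the fraction field of `S` via
`⟨a, b⟩ ↦ ⟨algebraMap a, algebraMap b⟩`.  If `z = ⟨a, b⟩ ∈ M` is integral over `S`, it is integral over `R`, so is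
its conjugate `⟨a, -b⟩` (an `R`-algebra automorphism), hence `2 a` is integral over `R`, `2 a ∈ R`, `a ∈ R`
(`2` is a unit); then `⟨0, b⟩ = z - a` and its square `b ^ 2 d ∈ L` are integral over `R`, so `b ^ 2 d ∈ R`;
write `b = a' / b'` with `a' b' ∈ R`; `b' ^ 2 ∣ d * a' ^ 2`, so by `hSF` `b' ∣ a'`, that is `b ∈ R`.
(If more convenient, take any other fraction field, for instance work with `z = s / n`, `s ∈ S`, `n ∈ R`.) -/

namespace H45.PC
open Polynomial H45.CH0

theorem N1_key {R K : Type} [CommRing R] [IsDomain R] [IsIntegrallyClosed R] [Field K] [Algebra R K]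
    (hinj : Function.Injective (algebraMap R K)) (a n : R) (hn : n ≠ 0)
    (h : IsIntegral R (algebraMap R K a / algebraMap R K n)) : n ∣ a := by
  have hg : Function.Injective (Algebra.ofId R K) := hinj
  let f : FractionRing R →ₐ[R] K := IsFractionRing.liftAlgHom hg
  have hf : Function.Injective f := f.toRingHom.injective
  have h1 : f (algebraMap R (FractionRing R) a / algebraMap R (FractionRing R) n) =
      algebraMap R K a / algebraMap R K n := by
    rw [map_div₀, AlgHom.commutes, AlgHom.commutes]
  rw [← h1, isIntegral_algHom_iff f hf] at h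
  obtain ⟨y, hy⟩ := IsIntegrallyClosed.isIntegral_iff.1 h
  refine ⟨y, ?_⟩
  have hn' : algebraMap R (FractionRing R) n ≠ 0 := by
    intro h0
    exact hn ((map_eq_zero_iff _ (IsFractionRing.injective R (FractionRing R))).1 h0)
  rw [eq_div_iff hn', ← map_mul] at hy
  have := IsFractionRing.injective R (FractionRing R) hy
  rw [← this, mul_comm]

theorem N1_add_star {R : Type} [CommRing R] (d : R) (z : QuadraticAlgebra R d 0) :
    z + star z = algebraMap R (QuadraticAlgebra R d 0) (2 * z.re) := by
  rw [QuadraticAlgebra.algebraMap_eq]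
  ext
  · simp only [QuadraticAlgebra.re_add, QuadraticAlgebra.re_star]
    ring
  · simp only [QuadraticAlgebra.im_add, QuadraticAlgebra.im_star]
    ring

theorem N1_sub_star {R : Type} [CommRing R] (d : R) (z : QuadraticAlgebra R d 0) :
    (z - star z) ^ 2 = algebraMap R (QuadraticAlgebra R d 0) (d * (2 * z.im) ^ 2) := by
  rw [QuadraticAlgebra.algebraMap_eq]
  ext
  · simp only [pow_two, QuadraticAlgebra.re_mul, QuadraticAlgebra.re_sub,
      QuadraticAlgebra.im_sub, QuadraticAlgebra.re_star, QuadraticAlgebra.im_star]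
    ring
  · simp only [pow_two, QuadraticAlgebra.im_mul, QuadraticAlgebra.re_sub,
      QuadraticAlgebra.im_sub, QuadraticAlgebra.re_star, QuadraticAlgebra.im_star]
    ring

theorem isIntegrallyClosed_quad {R : Type} [CommRing R] [IsDomain R] [IsIntegrallyClosed R]
    (h2 : IsUnit (2 : R)) (d : R) (hNS : NS d)
    (hSF : ∀ a b : R, b ≠ 0 → b ^ 2 ∣ d * a ^ 2 → b ∣ a) :
    IsIntegrallyClosed (QuadraticAlgebra R d 0) := by
  have hdom : IsDomain (QuadraticAlgebra R d 0) := isDomain_of_NS d hNS
  set S := QuadraticAlgebra R d 0 with hS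
  set K := FractionRing S with hK
  rw [isIntegrallyClosed_iff K]
  intro x hx
  have hxR : IsIntegral R x := isIntegral_trans x hx
  have hinjRS : Function.Injective (algebraMap R S) := QuadraticAlgebra.algebraMap_injective
  have hinjSK : Function.Injective (algebraMap S K) := IsFractionRing.injective S K
  have htow : ∀ r : R, algebraMap R K r = algebraMap S K (algebraMap R S r) := fun r =>
    IsScalarTower.algebraMap_apply R S K r
  have hinjRK : Function.Injective (algebraMap R K) := by
    intro r r' hr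
    rw [htow, htow] at hr
    exact hinjRS (hinjSK hr)
  -- `x = s / n`
  obtain ⟨s, n, hn, hxs⟩ : ∃ (s : S) (n : R), n ≠ 0 ∧ x = algebraMap S K s / algebraMap R K n := by
    obtain ⟨s, t, ht, rfl⟩ := IsFractionRing.div_surjective (A := S) x
    have ht0 : t ≠ 0 := nonZeroDivisors.ne_zero ht
    have hst : star t ≠ 0 := by
      intro h0
      apply ht0
      rw [← star_star t, h0, star_zero]
    have hnm := QuadraticAlgebra.algebraMap_norm_eq_mul_star t
    refine ⟨s * star t, QuadraticAlgebra.norm t, ?_, ?_⟩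
    · intro h0
      rw [h0, map_zero] at hnm
      exact (mul_ne_zero ht0 hst) hnm.symm
    · rw [htow, hnm, map_mul, map_mul, mul_div_mul_right]
      intro h0
      exact hst ((map_eq_zero_iff _ hinjSK).1 h0)
  -- conjugation
  have hcj : Function.Injective (starRingEnd S) := star_injective
  let σ : K →+* K := IsFractionRing.map (K := K) (L := K) hcj
  have hσ : ∀ s : S, σ (algebraMap S K s) = algebraMap S K (star s) := fun s =>
    IsLocalization.map_eq _ s
  have hσR : ∀ r : R, σ (algebraMap R K r) = algebraMap R K r := by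
    intro r
    rw [htow, hσ]
    congr 1
    rw [QuadraticAlgebra.algebraMap_eq, QuadraticAlgebra.star_mk]
    simp
  have hσx : IsIntegral R (σ x) := hxR.map_of_comp_eq (RingHom.id R) σ (by
    ext r
    exact (hσR r).symm)
  have hn' : algebraMap R K n ≠ 0 := by
    intro h0
    exact hn ((map_eq_zero_iff _ hinjRK).1 h0)
  have hsum : x + σ x = algebraMap R K (2 * s.re) / algebraMap R K n := by
    rw [hxs, map_div₀, hσ, hσR, ← add_div, ← map_add, htow (2 * s.re)]
    rw [N1_add_star d s]
  have hdiff : (x - σ x) ^ 2 = algebraMap R K (d * (2 * s.im) ^ 2) / algebraMap R K (n ^ 2) := by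
    rw [hxs, map_div₀, hσ, hσR, ← sub_div, ← map_sub, div_pow, ← map_pow, ← map_pow,
      htow (d * (2 * s.im) ^ 2)]
    rw [N1_sub_star d s]
  have d1 : n ∣ 2 * s.re := N1_key hinjRK _ _ hn (by
    rw [← hsum]
    exact hxR.add hσx)
  have d2 : n ^ 2 ∣ d * (2 * s.im) ^ 2 := N1_key hinjRK _ _ (pow_ne_zero 2 hn) (by
    rw [← hdiff]
    exact (hxR.sub hσx).pow 2)
  have d3 : n ∣ 2 * s.im := hSF _ _ hn d2
  rw [h2.dvd_mul_left] at d1 d3
  obtain ⟨y, hy⟩ := QuadraticAlgebra.algebraMap_dvd_iff.2 ⟨d1, d3⟩
  refine ⟨y, ?_⟩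
  rw [hxs, hy, map_mul, htow, mul_comm, mul_div_cancel_right₀]
  rw [← htow]
  exact hn'

end H45.PC
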