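import Mathlib
set_option autoImplicit false

/-! # N2: a square-free condition for polynomials over an integrally closed domain

Proof.  Let `k = FractionRing A`; write `p~` for the image of `p` in `k[X]`.  From `hab`, `d * a ^ 2 = b ^ 2 * r`.
In `k[X]` (Euclidean domain) let `g = gcd a~ b~`, `b~ = g b1`, `a~ = g a1`, `a1, b1` coprime.  Then `b1 ^ 2 ∣ d~ a1 ^ 2`,
so `b1 ^ 2 ∣ d~`, `b1 ∣ d~` and `b1 ∣ derivative d~` (product rule), so `b1 ∣ C c~` by `h`, a unit; so `b1` is a unit and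
`b~ ∣ a~`, `a~ = b~ φ`.  Then `d~ φ ^ 2 = r~`.  Let `u` be the leading coefficient of `d` (a unit of `A`) and
`d0 = C u⁻¹ * d`, monic.  Division with remainder by `d0` over `A` and over `k` (`Polynomial.map_divByMonic`,
`Polynomial.map_modByMonic`): `d0 ∣ r` in `A[X]` because `d0~ ∣ r~` (`(Polynomial.modByMonic_eq_zero_iff_dvd ..)`).
So `r = d0 * s' = d * s`, `s ∈ A[X]`, hence `d * a ^ 2 = d * (b ^ 2 * s)`, `a ^ 2 = b ^ 2 * s`, `b ^ 2 ∣ a ^ 2`.
`A[X]` is an integrally closed domain (Mathlib instance), so `b ∣ a`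
(`IsIntegrallyClosed.pow_dvd_pow_iff two_ne_zero`). -/

namespace H45.PC
open Polynomial

/-- the statement over a field -/
private theorem n2_field {k : Type} [Field k] (d : k[X]) (hd : Squarefree d) (a b : k[X])
    (hb : b ≠ 0) (hab : b ^ 2 ∣ d * a ^ 2) : b ∣ a := by
  classical
  have hg : EuclideanDomain.gcd a b ≠ 0 := by
    intro h
    exact hb (EuclideanDomain.gcd_eq_zero_iff.1 h).2
  obtain ⟨a1, ha1⟩ := EuclideanDomain.gcd_dvd_left a b
  obtain ⟨b1, hb1⟩ := EuclideanDomain.gcd_dvd_right a b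
  set g := EuclideanDomain.gcd a b with hgdef
  have hcop : IsCoprime a1 b1 := by
    have h1 := EuclideanDomain.gcd_eq_gcd_ab a b
    rw [← hgdef] at h1
    refine ⟨EuclideanDomain.gcdA a b, EuclideanDomain.gcdB a b, ?_⟩
    apply mul_left_cancel₀ hg
    calc g * (EuclideanDomain.gcdA a b * a1 + EuclideanDomain.gcdB a b * b1)
        = (g * a1) * EuclideanDomain.gcdA a b + (g * b1) * EuclideanDomain.gcdB a b := by ring
      _ = g * 1 := by rw [← ha1, ← hb1, ← h1, mul_one]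
  have h2 : b1 ^ 2 ∣ d * a1 ^ 2 := by
    have h3 : g ^ 2 * b1 ^ 2 ∣ g ^ 2 * (d * a1 ^ 2) := by
      have h4 : g ^ 2 * b1 ^ 2 = b ^ 2 := by rw [hb1]; ring
      have h5 : g ^ 2 * (d * a1 ^ 2) = d * a ^ 2 := by rw [ha1]; ring
      rw [h4, h5]
      exact hab
    exact (mul_dvd_mul_iff_left (pow_ne_zero 2 hg)).1 h3
  have h3 : b1 ^ 2 ∣ d := (hcop.symm.pow (m := 2) (n := 2)).dvd_of_dvd_mul_right h2
  have h4 : IsUnit b1 := hd b1 (by rw [← pow_two]; exact h3)
  rw [hb1, ha1]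
  exact mul_dvd_mul_left g h4.dvd

theorem dvd_of_sq_dvd {A : Type} [CommRing A] [IsDomain A] [IsIntegrallyClosed A] (d : A[X])
    (hl : IsUnit d.leadingCoeff) (P Q : A[X]) (c : A) (hc : c ≠ 0) (h : P * d + Q * derivative d = C c)
    (a b : A[X]) (hb : b ≠ 0) (hab : b ^ 2 ∣ d * a ^ 2) : b ∣ a := by
  obtain ⟨r, hr⟩ := hab
  let φ : A →+* FractionRing A := algebraMap A (FractionRing A)
  have hφ : Function.Injective φ := IsFractionRing.injective A (FractionRing A)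
  have hsep : (d.map φ).Separable := by
    have h1 : P.map φ * d.map φ + Q.map φ * derivative (d.map φ) = C (φ c) := by
      rw [← Polynomial.map_mul, derivative_map, ← Polynomial.map_mul, ← Polynomial.map_add, h,
        Polynomial.map_C]
    have hc' : φ c ≠ 0 := by
      intro h2
      exact hc (hφ (by rw [h2, map_zero]))
    refine ⟨C (φ c)⁻¹ * P.map φ, C (φ c)⁻¹ * Q.map φ, ?_⟩
    rw [mul_assoc, mul_assoc, ← mul_add, h1, ← C_mul, inv_mul_cancel₀ hc', C_1]
  have hb' : b.map φ ≠ 0 := by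
    rw [Ne, Polynomial.map_eq_zero_iff hφ]
    exact hb
  have hr' : d.map φ * (a.map φ) ^ 2 = (b.map φ) ^ 2 * r.map φ := by
    rw [← Polynomial.map_pow, ← Polynomial.map_mul, hr, Polynomial.map_mul, Polynomial.map_pow]
  obtain ⟨e, he⟩ := n2_field (d.map φ) hsep.squarefree (a.map φ) (b.map φ) hb' ⟨_, hr'⟩
  have h3 : d.map φ * e ^ 2 = r.map φ := by
    apply mul_left_cancel₀ (pow_ne_zero 2 hb')
    rw [← hr', he]
    ring
  -- descend
  obtain ⟨u, hu⟩ := hl
  set d0 : A[X] := C ((u⁻¹ : Aˣ) : A) * d with hd0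
  have hd0m : d0.Monic := by
    rw [Monic.def, hd0, leadingCoeff_mul, leadingCoeff_C, ← hu]
    exact Units.inv_mul u
  have hdd0 : d = C (u : A) * d0 := by
    rw [hd0, ← mul_assoc, ← C_mul, Units.mul_inv, C_1, one_mul]
  have hd : d ≠ 0 := by
    rintro rfl
    rw [leadingCoeff_zero] at hu
    exact u.ne_zero hu
  have h4 : d0.map φ ∣ r.map φ := by
    refine ⟨C (φ u) * e ^ 2, ?_⟩
    rw [← h3]
    conv_lhs => rw [hdd0, Polynomial.map_mul, Polynomial.map_C]
    ring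
  rw [Polynomial.map_dvd_map φ hφ hd0m] at h4
  obtain ⟨s', hs'⟩ := h4
  have h5 : a ^ 2 = b ^ 2 * (C ((u⁻¹ : Aˣ) : A) * s') := by
    apply mul_left_cancel₀ hd
    rw [hr, hs']
    conv_rhs => rw [hdd0]
    have h6 : C (u : A) * C ((u⁻¹ : Aˣ) : A) = 1 := by rw [← C_mul, Units.mul_inv, C_1]
    linear_combination (-(b ^ 2 * d0 * s')) * h6
  exact (IsIntegrallyClosed.pow_dvd_pow_iff two_ne_zero).1 ⟨_, h5⟩

end H45.PC
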