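import Mathlib
import Pool.Agent.H45.CH0Smooth
set_option autoImplicit false

/-! # Arcs through the vertex curve force `x` to be a square -/

namespace H45.PC
open AlgebraicGeometry CategoryTheory CategoryTheory.Limits H45.CH0

lemma isSquare_of_mul_sq {κ : Type*} [Field κ] (x w c : κ) (h : w ^ 2 = x * c ^ 2) (hc : c ≠ 0) : IsSquare x := by
  refine ⟨w / c, ?_⟩
  field_simp
  linear_combination -h

/-- a point of the twisted cusp over a valuation ring -/
lemma isSquare_of_val {O κ : Type*} [CommRing O] [IsDomain O] [ValuationRing O] [Field κ] (res : O →+* κ)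
    (x u v w : O) (h : w ^ 2 = x * ((u ^ 2 - x * v ^ 2) ^ 2 + u ^ 5)) (hne : u ≠ 0 ∨ v ≠ 0) (hu : res u = 0) :
    IsSquare (res x) := by
  rcases ValuationRing.dvd_total u v with ⟨c, hc⟩ | ⟨c, hc⟩
  · have hu0 : u ≠ 0 := by
      rintro rfl
      rcases hne with h1 | h1
      · exact h1 rfl
      · exact h1 (by rw [hc, zero_mul])
    have h1 : (u ^ 2) ^ 2 ∣ w ^ 2 := ⟨x * ((1 - x * c ^ 2) ^ 2 + u), by rw [h, hc]; ring⟩
    rw [IsIntegrallyClosed.pow_dvd_pow_iff two_ne_zero] at h1
    obtain ⟨w', rfl⟩ := h1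
    have h2 : w' ^ 2 = x * ((1 - x * c ^ 2) ^ 2 + u) := by
      apply mul_left_cancel₀ (pow_ne_zero 4 hu0)
      rw [hc] at h
      linear_combination h
    have h3 := congrArg res h2
    simp only [map_pow, map_mul, map_add, map_sub, map_one, hu, add_zero] at h3
    by_cases h4 : 1 - res x * (res c) ^ 2 = 0
    · have hc0 : res c ≠ 0 := by
        intro h5
        rw [h5] at h4
        simp at h4
      exact isSquare_of_mul_sq _ 1 (res c) (by linear_combination h4) hc0
    · exact isSquare_of_mul_sq _ _ _ h3 h4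
  · have hv0 : v ≠ 0 := by
      rintro rfl
      rcases hne with h1 | h1
      · exact h1 (by rw [hc, zero_mul])
      · exact h1 rfl
    have h1 : (v ^ 2) ^ 2 ∣ w ^ 2 := ⟨x * ((c ^ 2 - x) ^ 2 + v * c ^ 5), by rw [h, hc]; ring⟩
    rw [IsIntegrallyClosed.pow_dvd_pow_iff two_ne_zero] at h1
    obtain ⟨w', rfl⟩ := h1
    have h2 : w' ^ 2 = x * ((c ^ 2 - x) ^ 2 + v * c ^ 5) := by
      apply mul_left_cancel₀ (pow_ne_zero 4 hv0)
      rw [hc] at h
      linear_combination h
    have h3 := congrArg res h2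
    simp only [map_pow, map_mul, map_add, map_sub] at h3
    have h5 : res v * (res c) ^ 5 = 0 := by
      rw [hc, map_mul] at hu
      linear_combination (res c) ^ 4 * hu
    rw [h5, add_zero] at h3
    by_cases h4 : (res c) ^ 2 - res x = 0
    · exact ⟨res c, by linear_combination -h4⟩
    · exact isSquare_of_mul_sq _ _ _ h3 h4

section
variable {A : CommRingCat.{0}} (x u v w : A) (h : w ^ 2 = x * ((u ^ 2 - x * v ^ 2) ^ 2 + u ^ 5)) {C V' : Scheme.{0}}

include h in
lemma isSquare_ev_of_curvez [IsIntegral C] (b : C ⟶ Spec A) (c : C)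
    [IsDiscreteValuationRing (C.presheaf.stalk c)] (hne : gam b u ≠ 0 ∨ gam b v ≠ 0) (hc : ev b c u = 0) :
    IsSquare (ev b c x) := by
  let G : A →+* C.presheaf.stalk c := (C.presheaf.germ ⊤ c trivial).hom.comp (gam b).hom
  have hG : ∀ a : A, ev b c a = C.residue c (G a) := by
    intro a
    rw [ev_eq_evaluation]
    rfl
  have hinj : ∀ a : A, gam b a ≠ 0 → G a ≠ 0 := by
    intro a ha h
    apply ha
    apply germ_injective_of_isIntegral (X := C) (U := ⊤) c trivial
    rw [map_zero]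
    exact h
  rw [hG]
  refine isSquare_of_val (C.residue c).hom (G x) (G u) (G v) (G w) ?_ ?_ ?_
  · have := congrArg G h
    simpa using this
  · rcases hne with h1 | h1
    · exact Or.inl (hinj _ h1)
    · exact Or.inr (hinj _ h1)
  · exact (hG u).symm.trans hc

include h in
lemma isSquare_ev_of_smoothz (s : V' ⟶ Spec (.of ℂ)) [Smooth s] (b : V' ⟶ Spec A)
    (hdense : ∀ U : V'.Opens, (U : Set V').Nonempty → ∃ v ∈ U, ev b v u ≠ 0)
    (z : V') (hz : ev b z u = 0) : IsSquare (ev b z x) := by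
  obtain ⟨V, hV, hwV, n, g, hg⟩ := exists_etale_chart s z
  let ρ : A →+* Γ(V', V) := (V'.presheaf.map (homOfLE le_top : V ⟶ ⊤).op).hom.comp (gam b).hom
  have hev : ∀ (v : V') (hv : v ∈ V) (a : A), ev b v a = V'.evaluation V v hv (ρ a) := by
    intro v hv a
    rw [ev_eq_evaluation]
    change V'.residue v (V'.presheaf.germ ⊤ v trivial (gam b a)) =
      V'.residue v (V'.presheaf.germ V v hv (V'.presheaf.map (homOfLE le_top : V ⟶ ⊤).op (gam b a)))
    rw [TopCat.Presheaf.germ_res_apply]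
  have hnil : ∀ z : Γ(V', V), IsNilpotent (z * ρ u) → IsNilpotent z := by
    intro z hz
    by_contra hcon
    rw [Scheme.isNilpotent_iff_basicOpen_eq_bot_of_isCompact hV.isCompact] at hcon hz
    obtain ⟨v, hv⟩ : (V'.basicOpen z : Set V').Nonempty := by
      rwa [Set.nonempty_iff_ne_empty, Ne, TopologicalSpace.Opens.coe_eq_empty]
    obtain ⟨v, hv, hvt⟩ := hdense _ ⟨v, hv⟩
    have hvV : v ∈ V := V'.basicOpen_le z hv
    have : v ∈ V'.basicOpen (z * ρ u) := by
      rw [← Scheme.evaluation_ne_zero_iff_mem_basicOpen V' v hvV, map_mul]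
      apply mul_ne_zero
      · rwa [Scheme.evaluation_ne_zero_iff_mem_basicOpen V' v hvV]
      · rwa [← hev v hvV]
    rw [hz] at this
    exact this
  obtain ⟨q, h0, hdvd⟩ := exists_dvd g hg (ρ u) hnil
  obtain ⟨Φ, hΦ, hΦh⟩ := exists_arc g hg (V'.evaluation V z hwV).hom q h0
  have hΦu : Φ (ρ u) ≠ 0 := by
    intro h1
    apply hΦh
    obtain ⟨y, hy⟩ := hdvd
    rw [hy, map_mul, h1, zero_mul]
  have h2 : ∀ a, ev b z a = PowerSeries.constantCoeff (Φ (ρ a)) := by
    intro a
    rw [hev z hwV, hΦ]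
  rw [h2]
  refine isSquare_of_val (PowerSeries.constantCoeff) (Φ (ρ x)) (Φ (ρ u)) (Φ (ρ v)) (Φ (ρ w)) ?_ (Or.inl hΦu) ?_
  · have := congrArg (Φ.comp ρ) h
    simpa using this
  · rw [← h2]
    exact hz

end
end H45.PC
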