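import Mathlib
import Pool.Agent.H45.CH0Case2
set_option autoImplicit false

/-! # Reciprocity for curves in the vertex curve, for a variety with several further coordinates -/

namespace H45.PC
open AlgebraicGeometry CategoryTheory CategoryTheory.Limits Polynomial H45.CH0

section
variable {F : Type} [Field F] (i : ℂ →+* F) (H : ℂ[X])
variable {A : CommRingCat.{0}} (ιA : ℂ →+* A) (xA yA : A) {ιZ : Type} (zA : ιZ → A)
variable {W C : Scheme.{0}} (a : W ⟶ Spec A) (σ : W ⟶ Spec (.of F))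
  (p : C ⟶ W)

variable (hcomp : ∀ c : ℂ, (gam σ).hom (i c) = (gam a).hom (ιA c))
  (hy : yA ^ 2 = xA ^ 3 - xA)

variable (β : Spec (.of (RH i H)) ⟶ W) (θ : A →+* RH i H) (hβa : β ≫ a = Spec.map (CommRingCat.ofHom θ))
  (hβσ : β ≫ σ = Spec.map (CommRingCat.ofHom (algebraMap F (RH i H))))
  (hmono : ∀ (T : Scheme.{0}) (u v : T ⟶ W), u ≫ a = v ≫ a → u ≫ σ = v ≫ σ → u = v)
  (hθι : ∀ c : ℂ, θ (ιA c) = algebraMap F (RH i H) (i c))
  (hθx : θ xA = algebraMap _ _ (lx i H)) (hθy : θ yA = qw _) (hθz : ∀ j, θ (zA j) = 0)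
  (hA : ∀ (T : Type) (_ : CommRing T) (u v : A →+* T), (∀ c, u (ιA c) = v (ιA c)) → u xA = v xA →
    u yA = v yA → (∀ j, u (zA j) = v (zA j)) → u = v)
  (hpz : ∀ j, (gam (p ≫ a)).hom (zA j) = 0)

include hβa hβσ hmono hθι hθx hθy hθz hA hpz in
lemma chart_compz {Z : Scheme.{0}} (u : Z ⟶ C) (hu : ∀ z : Z, u z ∈ CU H ιA xA a p) :
    chart i H ιA xA yA a σ p hcomp hy u hu ≫ β = u ≫ p := by
  apply hmono
  · rw [Category.assoc, hβa]
    apply hom_ext_gam
    rw [gam_spec, gam_chart]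
    ext : 1
    have e1 := y_chart xA yA a p hy u
    have e2 := isUnit_chart i H ιA xA a σ p hcomp u hu
    apply hA
    · intro c
      change rhLift i H _ _ _ e1 e2 (θ (ιA c)) = (gam ((u ≫ p) ≫ a)).hom (ιA c)
      rw [hθι, rhLift_F, gam_hcomp i ιA a σ hcomp]
    · change rhLift i H _ _ _ e1 e2 (θ xA) = (gam ((u ≫ p) ≫ a)).hom xA
      rw [hθx, rhLift_x]
    · change rhLift i H _ _ _ e1 e2 (θ yA) = (gam ((u ≫ p) ≫ a)).hom yA
      rw [hθy, rhLift_y]
    · intro j
      change rhLift i H _ _ _ e1 e2 (θ (zA j)) = (gam ((u ≫ p) ≫ a)).hom (zA j)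
      rw [hθz, map_zero, Category.assoc, gam_comp_apply, hpz, map_zero]
  · rw [Category.assoc, hβσ]
    apply hom_ext_gam
    rw [gam_spec, gam_chart]
    ext : 1
    ext c
    have e1 := y_chart xA yA a p hy u
    have e2 := isUnit_chart i H ιA xA a σ p hcomp u hu
    exact rhLift_F i H _ _ _ e1 e2 c

include hβa hβσ hmono hθι hθx hθy hθz hA hpz in
/-- the open subset of the curve is the preimage of the affine curve -/
lemma isPullback_chartz :
    IsPullback (CU H ιA xA a p).ι (chart i H ιA xA yA a σ p hcomp hy (CU H ιA xA a p).ι (fun z => z.2)) p β := by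
  have hcm := chart_compz i H ιA xA yA zA a σ p hcomp hy β θ hβa hβσ hmono hθι hθx hθy hθz hA hpz
    (CU H ιA xA a p).ι (fun z => z.2)
  have hrange : ∀ s : PullbackCone p β, Set.range s.fst ⊆ Set.range (CU H ιA xA a p).ι := by
    rintro s _ ⟨z, rfl⟩
    rw [Scheme.Opens.range_ι]
    exact mem_CU_of_factor i H ιA xA a p β θ hβa hθι hθx s.fst s.snd s.condition z
  refine ⟨⟨hcm.symm⟩, ⟨PullbackCone.IsLimit.mk _
    (fun s => IsOpenImmersion.lift (CU H ιA xA a p).ι s.fst (hrange s)) ?_ ?_ ?_⟩⟩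
  · intro s
    exact IsOpenImmersion.lift_fac _ _ _
  · intro s
    apply chart_unique i H xA yA a σ β θ hβa hβσ hθx hθy
    rw [Category.assoc, hcm, ← Category.assoc, IsOpenImmersion.lift_fac, s.condition]
  · intro s m h1 _
    rw [← cancel_mono (CU H ιA xA a p).ι, h1, IsOpenImmersion.lift_fac]

include hβa hβσ hmono hθι hθx hθy hθz hA hpz in
lemma isFinite_chartz [IsFinite p] :
    IsFinite (chart i H ιA xA yA a σ p hcomp hy (CU H ιA xA a p).ι (fun z => z.2)) :=
  MorphismProperty.of_isPullback (isPullback_chartz i H ιA xA yA zA a σ p hcomp hy β θ hβa hβσ hmono hθι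
    hθx hθy hθz hA hpz) inferInstance

end

section
variable {F : Type} [Field F] (i : ℂ →+* F) (H : ℂ[X]) (hH : H ≠ 0) (hXH : (X : ℂ[X]) ∣ H)
variable {A : CommRingCat.{0}} (ιA : ℂ →+* A) (xA yA : A) {ιZ : Type} (zA : ιZ → A)
variable {W C : Scheme.{0}} (a : W ⟶ Spec A) (σ : W ⟶ Spec (.of F))
  (p : C ⟶ W)
variable (hcomp : ∀ c : ℂ, (gam σ).hom (i c) = (gam a).hom (ιA c))
  (hy : yA ^ 2 = xA ^ 3 - xA)
variable (β : Spec (.of (RH i H)) ⟶ W) (θ : A →+* RH i H) (hβa : β ≫ a = Spec.map (CommRingCat.ofHom θ))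
  (hβσ : β ≫ σ = Spec.map (CommRingCat.ofHom (algebraMap F (RH i H))))
  (hmono : ∀ (T : Scheme.{0}) (u v : T ⟶ W), u ≫ a = v ≫ a → u ≫ σ = v ≫ σ → u = v)
  (hθι : ∀ c : ℂ, θ (ιA c) = algebraMap F (RH i H) (i c))
  (hθx : θ xA = algebraMap _ _ (lx i H)) (hθy : θ yA = qw _) (hθz : ∀ j, θ (zA j) = 0)
  (hA : ∀ (T : Type) (_ : CommRing T) (u v : A →+* T), (∀ c, u (ιA c) = v (ιA c)) → u xA = v xA →
    u yA = v yA → (∀ j, u (zA j) = v (zA j)) → u = v)
  (hpz : ∀ j, (gam (p ≫ a)).hom (zA j) = 0)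

include hβa hβσ hmono hθι hθx hθy hθz hA hpz hy in
lemma lamC_finitez [IsFinite p] : IsAffineOpen (CU H ιA xA a p) ∧ (lamC i H ιA xA a σ p hcomp).Finite := by
  have h1 := isFinite_chartz i H ιA xA yA zA a σ p hcomp hy β θ hβa hβσ hmono hθι hθx hθy hθz hA hpz
  obtain ⟨χ, hχ⟩ : ∃ χ, χ = chart i H ιA xA yA a σ p hcomp hy (CU H ιA xA a p).ι (fun z => z.2) := ⟨_, rfl⟩
  rw [← hχ] at h1
  have haff : IsAffine (CU H ιA xA a p).toScheme := isAffine_of_isAffineHom χ
  refine ⟨haff, ?_⟩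
  -- the global sections are finite over the chart
  have h2 : IsFinite (χ ≫ Spec.map (CommRingCat.ofHom (algebraMap (Lam i H) (RH i H)))) := by
    have : IsFinite (Spec.map (CommRingCat.ofHom (algebraMap (Lam i H) (RH i H)))) := by
      rw [IsFinite.SpecMap_iff]
      exact RingHom.finite_algebraMap.mpr inferInstance
    infer_instance
  have h3 := Scheme.Hom.finite_appTop (χ ≫ Spec.map (CommRingCat.ofHom (algebraMap (Lam i H) (RH i H))))
  have h4 : (gam (χ ≫ Spec.map (CommRingCat.ofHom (algebraMap (Lam i H) (RH i H))))).hom.Finite := by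
    unfold gam
    exact RingHom.Finite.comp h3 (RingHom.Finite.of_surjective _
      (Scheme.ΓSpecIso (.of (Lam i H))).symm.commRingCatIsoToRingEquiv.surjective)
  have h5 : (CU H ιA xA a p).topIso.inv.hom.comp (lamC i H ιA xA a σ p hcomp) =
      (gam (χ ≫ Spec.map (CommRingCat.ofHom (algebraMap (Lam i H) (RH i H))))).hom := by
    have hti : ∀ z, (CU H ιA xA a p).topIso.inv.hom ((resU (CU H ιA xA a p)).hom z) =
        (CU H ιA xA a p).ι.appTop.hom z := by
      intro z
      exact congrArg (fun f => f.hom z) (resU_topIso (CU H ιA xA a p))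
    have e1 := y_chart xA yA a p hy (CU H ιA xA a p).ι
    have e2 := isUnit_chart i H ιA xA a σ p hcomp (CU H ιA xA a p).ι (fun z => z.2)
    have e3 : ∀ z : RH i H, (gam χ).hom z = rhLift i H _ _ _ e1 e2 z := by
      intro z
      rw [hχ]
      exact congrArg (fun f => f.hom z)
        (gam_chart i H ιA xA yA a σ p hcomp hy (CU H ιA xA a p).ι (fun z => z.2))
    apply lam_hom_ext
    · intro z
      rw [gam_spec]
      change (CU H ιA xA a p).topIso.inv.hom (lamC i H ιA xA a σ p hcomp (algebraMap F (Lam i H) z)) =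
        (gam χ).hom (algebraMap (Lam i H) (RH i H) (algebraMap F (Lam i H) z))
      unfold lamC
      rw [lamLift_F, e3, ← IsScalarTower.algebraMap_apply, rhLift_F, RingHom.comp_apply, hti,
        Category.assoc]
      exact (gam_comp_apply _ _ _).symm
    · rw [gam_spec]
      change (CU H ιA xA a p).topIso.inv.hom (lamC i H ιA xA a σ p hcomp (lx i H)) =
        (gam χ).hom (algebraMap (Lam i H) (RH i H) (lx i H))
      unfold lamC
      rw [lamLift_x, e3, rhLift_x]
      change (CU H ιA xA a p).topIso.inv.hom ((resU (CU H ιA xA a p)).hom _) = _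
      rw [hti, Category.assoc]
      exact (gam_comp_apply _ _ _).symm
  have h6 : lamC i H ιA xA a σ p hcomp = (CU H ιA xA a p).topIso.hom.hom.comp
      (gam (χ ≫ Spec.map (CommRingCat.ofHom (algebraMap (Lam i H) (RH i H))))).hom := by
    rw [← h5]
    ext z
    have := congrArg (fun f => f.hom (lamC i H ιA xA a σ p hcomp z)) (CU H ιA xA a p).topIso.inv_hom_id
    exact this.symm
  rw [h6]
  exact RingHom.Finite.comp (RingHom.Finite.of_surjective _
      (CU H ιA xA a p).topIso.commRingCatIsoToRingEquiv.surjective) h4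
end

section
variable {F : Type} [Field F] (i : ℂ →+* F) (H : ℂ[X]) (hH : H ≠ 0) (hXH : (X : ℂ[X]) ∣ H)
variable {A : CommRingCat.{0}} (ιA : ℂ →+* A) (xA yA : A) {ιZ : Type} (zA : ιZ → A)
variable {W C : Scheme.{0}} (a : W ⟶ Spec A) (σ : W ⟶ Spec (.of F))
  (p : C ⟶ W)
variable (hcomp : ∀ c : ℂ, (gam σ).hom (i c) = (gam a).hom (ιA c))
  (hy : yA ^ 2 = xA ^ 3 - xA)
variable (β : Spec (.of (RH i H)) ⟶ W) (θ : A →+* RH i H) (hβa : β ≫ a = Spec.map (CommRingCat.ofHom θ))
  (hβσ : β ≫ σ = Spec.map (CommRingCat.ofHom (algebraMap F (RH i H))))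
  (hmono : ∀ (T : Scheme.{0}) (u v : T ⟶ W), u ≫ a = v ≫ a → u ≫ σ = v ≫ σ → u = v)
  (hθι : ∀ c : ℂ, θ (ιA c) = algebraMap F (RH i H) (i c))
  (hθx : θ xA = algebraMap _ _ (lx i H)) (hθy : θ yA = qw _) (hθz : ∀ j, θ (zA j) = 0)
  (hA : ∀ (T : Type) (_ : CommRing T) (u v : A →+* T), (∀ c, u (ιA c) = v (ιA c)) → u xA = v xA →
    u yA = v yA → (∀ j, u (zA j) = v (zA j)) → u = v)
  (hpz : ∀ j, (gam (p ≫ a)).hom (zA j) = 0) (tA : A) (hpt : (gam (p ≫ a)).hom tA = 0)

include hH hXH hβa hβσ hmono hθι hθx hθy hθz hA hpz hpt hcomp hy in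
/-- reciprocity for curves contained in the double curve -/
theorem isSquare_case2z [IsIntegral C] [IsFinite p] [LocallyOfFiniteType σ] (hxu : IsUnit xA)
    (hdvr : ∀ c : C, IsClosed ({c} : Set C) → IsDiscreteValuationRing (C.presheaf.stalk c))
    (g : C.functionField) (hg : g ≠ 0) (d : C →₀ ℤ) (hd : IsDiv C g d) :
    IsSquare (thetaC (NN xA tA a σ) (push p d)) := by
  classical
  have hjW : JacobsonSpace W := LocallyOfFiniteType.jacobsonSpace σ
  let M : C → F := fun c => nrm (p ≫ σ) c (ev (p ≫ a) c xA)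
  have hM : ∀ c ∈ d.support, (NN xA tA a σ (p c)) ^ (p.residueDegree c) = M c := by
    intro c hc
    have hcl := hd.isZeroCycle c hc
    have h1 : ev a (p c) tA = 0 := by
      have h2 : ev (p ≫ a) c tA = 0 := by
        rw [ev_eq_evaluation, hpt, map_zero]
      rw [ev_comp] at h2
      exact (map_eq_zero _).mp h2
    have hcl' : IsClosed ({p c} : Set W) := by
      have := p.isClosedMap _ hcl
      rwa [Set.image_singleton] at this
    rw [NN_of_zero xA tA a σ _ h1, nrm_tower σ p c _ (finite_of_isClosed σ _ hcl') (finite_of_isClosed (p ≫ σ) _ hcl),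
      ← ev_comp]
  rw [thetaC_push _ (NN_ne_zero xA tA a σ hxu), Finset.prod_congr rfl (fun c hc => by rw [hM c hc])]
  rw [← Finset.prod_filter_mul_prod_filter_not d.support (fun c => c ∈ CU H ιA xA a p)]
  apply IsSquare.mul
  · by_cases hne : Nonempty (CU H ιA xA a p)
    · obtain ⟨haff, hfin⟩ := lamC_finitez i H ιA xA yA zA a σ p hcomp hy β θ hβa hβσ hmono hθι hθx hθy hθz hA hpz
      refine curve_reciprocity i H hH hXH (p ≫ σ) haff (lamC i H ιA xA a σ p hcomp) hfin ?_ hdvr g hg d hd hne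
        (resU (CU H ιA xA a p) ((gam (p ≫ a)).hom yA)) ?_ M ?_ ?_ _ ?_
      · intro c hc z
        unfold lamC
        rw [lamLift_F, ev_eq_evaluation]
        exact evaluation_resU _ c hc _
      · unfold lamC
        rw [map_sub, map_pow, lamLift_x, ← map_pow, ← map_pow, hy]
        simp
      · intro c hc
        unfold lamC
        rw [lamLift_x]
        simp only [M]
        rw [evaluation_resU _ c hc, ev_eq_evaluation]
      · intro c
        exact nrm_ne_zero _ _ _ (hxu.map (ev (p ≫ a) c)).ne_zero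
      · intro c
        rw [Finset.mem_filter]
    · have : d.support.filter (fun c => c ∈ CU H ιA xA a p) = ∅ := by
        rw [Finset.filter_eq_empty_iff]
        intro c _ hc
        exact hne ⟨c, hc⟩
      rw [this, Finset.prod_empty]
      exact IsSquare.one
  · apply Finset.isSquare_prod
    intro c hc
    rw [Finset.mem_filter] at hc
    apply IsSquare.zpow
    apply isSquare_nrm_root (p ≫ σ) i H hH
    have h1 : ev (p ≫ a) c (H.eval₂ ιA xA) = 0 := by
      rw [ev_eq_evaluation]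
      exact (Scheme.evaluation_eq_zero_iff_notMem_basicOpen C (U := ⊤) c trivial _).mpr hc.2
    rw [Polynomial.hom_eval₂] at h1
    rw [← h1]
    congr 1
    ext z
    change ev (p ≫ σ) c (i z) = ev (p ≫ a) c (ιA z)
    rw [ev_eq_evaluation, ev_eq_evaluation, gam_hcomp i ιA a σ hcomp]
end
end H45.PC
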