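import Mathlib
import Pool.Agent.H45.PC.RG
import Pool.Agent.H45.CH0Lift
import Pool.Agent.H45.CH0Neg1
set_option autoImplicit false

/-! # The rings of functions on `X` and on its double cover `Y` -/

namespace H45.PC
open Polynomial H45.CH0

/-- coordinate ring of `X` -/
abbrev RC : Type := RG EE xE

instance : IsDomain RC := isDomain_RG EE xE isUnit_xE.ne_zero

/-- the function `x` on `X` -/
noncomputable def xC : RC := eG EE xE xE
/-- the function `y` on `X` -/
noncomputable def yC : RC := eG EE xE yE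
/-- the function `u` on `X` -/
noncomputable def uC : RC := uG EE xE
/-- the function `v` on `X` -/
noncomputable def vC : RC := vG EE xE
/-- the function `w` on `X` -/
noncomputable def wC : RC := wG EE xE

lemma wC_sq : wC ^ 2 = xC * ((uC ^ 2 - xC * vC ^ 2) ^ 2 + uC ^ 5) := wG_sq EE xE

lemma yC_sq : yC ^ 2 = xC ^ 3 - xC := by
  unfold yC xC
  rw [← map_pow, yE_sq, map_sub, map_pow]

lemma isUnit_xC : IsUnit xC := isUnit_xE.map _

lemma eC_alg (c : ℂ) : algebraMap ℂ RC c = eG EE xE (algebraMap ℂ EE c) := rfl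

instance : Algebra.FiniteType ℂ EE[X][X] :=
  Algebra.FiniteType.trans (S := EE[X]) inferInstance inferInstance

instance : Algebra.FiniteType ℂ RC := by
  have h := q_finite (dG EE xE)
  have h2 : Algebra.FiniteType EE[X][X] RC := inferInstance
  exact Algebra.FiniteType.trans (S := EE[X][X]) inferInstance h2

/-- coordinate ring of `Y`, obtained by adjoining a square root of `x` -/
abbrev RD : Type := QuadraticAlgebra RC xC 0

instance : Algebra.FiniteType ℂ RD := by
  have h := q_finite xC
  have h2 : Algebra.FiniteType RC RD := inferInstance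
  exact Algebra.FiniteType.trans (S := RC) inferInstance h2

/-- coordinate ring of the double cover of the elliptic curve -/
abbrev KK : Type := QuadraticAlgebra EE xE 0

instance : IsDomain KK := isDomain_of_NS _ NS_xE

/-- the square root of `x` -/
noncomputable def ξK : KK := qw xE

lemma ξK_sq : ξK ^ 2 = algebraMap EE KK xE := qw_sq

lemma isUnit_ξK : IsUnit ξK := by
  have h : IsUnit (ξK ^ 2) := by rw [ξK_sq]; exact isUnit_xE.map _
  exact (isUnit_pow_iff two_ne_zero).1 h

/-- the inverse of the square root of `x` -/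
noncomputable def ξi : KK := ↑(isUnit_ξK.unit⁻¹)

lemma ξK_mul_ξi : ξK * ξi = 1 := isUnit_ξK.mul_val_inv

/-- constants of `Y` -/
noncomputable def κD : KK →+* RD := qLift ((algebraMap RC RD).comp (eG EE xE)) (qw xC) (by
  rw [qw_sq]
  rfl)

lemma κD_C (e : EE) : κD (algebraMap EE KK e) = algebraMap RC RD (eG EE xE e) := by
  unfold κD
  rw [qLift_C]
  rfl

lemma κD_ξ : κD ξK = qw xC := by
  unfold κD ξK
  rw [qLift_qw]

/-- the ring of functions on `Y` in coordinates in which the tangent cone splits -/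
abbrev RQ : Type := RG KK 1

instance : IsDomain RQ := isDomain_RG KK 1 one_ne_zero

/-- change of coordinates -/
noncomputable def toRD : RQ →+* RD :=
  rgLift κD (algebraMap RC RD uC) (qw xC * algebraMap RC RD vC) (κD ξi * algebraMap RC RD wC) (by
    have h1 := congrArg κD ξK_mul_ξi
    rw [map_mul, κD_ξ, map_one] at h1
    have h2 : (qw xC : RD) ^ 2 = algebraMap RC RD xC := qw_sq
    have h3 := congrArg (algebraMap RC RD) wC_sq
    simp only [map_mul, map_add, map_sub, map_pow] at h3
    rw [← h2] at h3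
    rw [map_one]
    obtain ⟨ξ, hξ⟩ : ∃ ξ, ξ = (qw xC : RD) := ⟨_, rfl⟩
    rw [← hξ] at h1 h3 ⊢
    linear_combination (κD ξi) ^ 2 * h3 + (((algebraMap RC RD uC) ^ 2 - ξ ^ 2 * (algebraMap RC RD vC) ^ 2) ^ 2 +
      (algebraMap RC RD uC) ^ 5) * (ξ * κD ξi + 1) * h1)

/-- change of coordinates -/
noncomputable def rcToRQ : RC →+* RQ :=
  rgLift ((eG KK 1).comp (algebraMap EE KK)) (uG KK 1) (eG KK 1 ξi * vG KK 1) (eG KK 1 ξK * wG KK 1) (by
    have h1 := congrArg (eG KK 1) ξK_mul_ξi
    rw [map_mul, map_one] at h1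
    have h2 := congrArg (eG KK 1) ξK_sq
    rw [map_pow] at h2
    have h3 := wG_sq KK 1
    rw [map_one] at h3
    rw [RingHom.comp_apply, ← h2]
    obtain ⟨ξ, hξ⟩ : ∃ ξ, ξ = eG KK 1 ξK := ⟨_, rfl⟩
    obtain ⟨η, hη⟩ : ∃ η, η = eG KK 1 ξi := ⟨_, rfl⟩
    rw [← hξ] at h1 ⊢
    rw [← hη] at h1 ⊢
    have e1 : ξ ^ 2 * (η * vG KK 1) ^ 2 = (vG KK 1) ^ 2 := by
      have : ξ ^ 2 * (η * vG KK 1) ^ 2 = (ξ * η) ^ 2 * (vG KK 1) ^ 2 := by ring
      rw [this, h1]; ring
    rw [e1]
    linear_combination ξ ^ 2 * h3)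

/-- change of coordinates -/
noncomputable def toRQ : RD →+* RQ := qLift rcToRQ (eG KK 1 ξK) (by
  unfold rcToRQ xC
  rw [rgLift_e, RingHom.comp_apply, ← ξK_sq, map_pow])

lemma toRQ_C (z : RC) : toRQ (algebraMap RC RD z) = rcToRQ z := by
  unfold toRQ
  rw [qLift_C]

lemma toRQ_ξ : toRQ (qw xC) = eG KK 1 ξK := by
  unfold toRQ
  rw [qLift_qw]

lemma toRQ_κD (k : KK) : toRQ (κD k) = eG KK 1 k := by
  have h : toRQ.comp κD = eG KK 1 := by
    apply q_hom_ext
    · intro e
      rw [RingHom.comp_apply, κD_C, toRQ_C]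
      unfold rcToRQ
      rw [rgLift_e]
      rfl
    · rw [RingHom.comp_apply]
      change toRQ (κD ξK) = eG KK 1 ξK
      rw [κD_ξ, toRQ_ξ]
  exact congrArg (fun f => f k) h

lemma toRD_e (k : KK) : toRD (eG KK 1 k) = κD k := by
  unfold toRD
  rw [rgLift_e]

lemma toRD_u : toRD (uG KK 1) = algebraMap RC RD uC := by
  unfold toRD
  rw [rgLift_u]

lemma toRD_v : toRD (vG KK 1) = qw xC * algebraMap RC RD vC := by
  unfold toRD
  rw [rgLift_v]

lemma toRD_w : toRD (wG KK 1) = κD ξi * algebraMap RC RD wC := by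
  unfold toRD
  rw [rgLift_w]

lemma toRQ_toRD (z : RQ) : toRQ (toRD z) = z := by
  have h1 := congrArg (eG KK 1) ξK_mul_ξi
  rw [map_mul, map_one] at h1
  have h : toRQ.comp toRD = RingHom.id RQ := by
    apply rg_hom_ext
    · intro k
      rw [RingHom.comp_apply, toRD_e, toRQ_κD]
      rfl
    · rw [RingHom.comp_apply, toRD_u, toRQ_C]
      unfold rcToRQ uC
      rw [rgLift_u]
      rfl
    · rw [RingHom.comp_apply, toRD_v, map_mul, toRQ_C, toRQ_ξ]
      unfold rcToRQ vC
      rw [rgLift_v, RingHom.id_apply]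
      linear_combination (vG KK 1) * h1
    · rw [RingHom.comp_apply, toRD_w, map_mul, toRQ_C, toRQ_κD]
      unfold rcToRQ wC
      rw [rgLift_w, RingHom.id_apply]
      linear_combination (wG KK 1) * h1
  exact congrArg (fun f => f z) h

lemma toRD_toRQ (z : RD) : toRD (toRQ z) = z := by
  have h1 := congrArg κD ξK_mul_ξi
  rw [map_mul, κD_ξ, map_one] at h1
  have h : toRD.comp toRQ = RingHom.id RD := by
    apply q_hom_ext
    · intro c
      have h2 : (toRD.comp toRQ).comp (algebraMap RC RD) = algebraMap RC RD := by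
        apply rg_hom_ext
        · intro e
          rw [RingHom.comp_apply, RingHom.comp_apply, toRQ_C]
          unfold rcToRQ
          rw [rgLift_e, RingHom.comp_apply, toRD_e, κD_C]
        · rw [RingHom.comp_apply, RingHom.comp_apply, toRQ_C]
          unfold rcToRQ
          rw [rgLift_u, toRD_u]
          rfl
        · rw [RingHom.comp_apply, RingHom.comp_apply, toRQ_C]
          unfold rcToRQ
          rw [rgLift_v, map_mul, toRD_v, toRD_e]
          change _ * (_ * algebraMap RC RD vC) = algebraMap RC RD vC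
          linear_combination (algebraMap RC RD vC) * h1
        · rw [RingHom.comp_apply, RingHom.comp_apply, toRQ_C]
          unfold rcToRQ
          rw [rgLift_w, map_mul, toRD_w, toRD_e, κD_ξ]
          change _ * (_ * algebraMap RC RD wC) = algebraMap RC RD wC
          linear_combination (algebraMap RC RD wC) * h1
      exact congrArg (fun f => f c) h2
    · rw [RingHom.comp_apply, toRQ_ξ, toRD_e, κD_ξ]
      rfl
  exact congrArg (fun f => f z) h

/-- change of coordinates -/
noncomputable def eQ : RD ≃+* RQ := RingEquiv.ofRingHom toRQ toRD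
  (RingHom.ext toRQ_toRD) (RingHom.ext toRD_toRQ)

lemma toRQ_injective : Function.Injective toRQ := eQ.injective

instance : IsDomain RD := toRQ_injective.isDomain toRQ

end H45.PC
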