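import Mathlib
import Pool.Agent.H45.PC.RD
import Pool.Agent.H45.PC.NC
import Pool.Agent.H45.PC.NA
import Pool.Agent.H45.CH0Neg
set_option autoImplicit false

/-! # The variety `X` does not have property (U) along the vertex curve -/

namespace H45.PC
open Polynomial AlgebraicGeometry CategoryTheory CategoryTheory.Limits H45.CH0

/-- the variety `X` -/
noncomputable abbrev XC : Scheme.{0} := Spec (.of RC)
/-- its structure morphism -/
noncomputable abbrev sC : XC ⟶ Spec (.of ℂ) := Spec.map (CommRingCat.ofHom (algebraMap ℂ RC))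

/-- restriction to the vertex curve -/
noncomputable def πC : RC →+* EE := rgLift (RingHom.id EE) 0 0 0 (by simp)

lemma πC_e (e : EE) : πC (eG EE xE e) = e := by
  unfold πC
  rw [rgLift_e]
  rfl

lemma πC_x : πC xC = xE := πC_e xE
lemma πC_y : πC yC = yE := πC_e yE
lemma πC_u : πC uC = 0 := by
  unfold πC uC
  rw [rgLift_u]
lemma πC_v : πC vC = 0 := by
  unfold πC vC
  rw [rgLift_v]
lemma πC_w : πC wC = 0 := by
  unfold πC wC
  rw [rgLift_w]
lemma πC_alg (c : ℂ) : πC (algebraMap ℂ RC c) = algebraMap ℂ EE c := by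
  rw [eC_alg, πC_e]

lemma ker_πC (z : RC) (hz : πC z = 0) : ∃ a b c : RC, z = a * uC + b * vC + c * wC := by
  have hP : ∀ p : EE[X][X], πC (algebraMap EE[X][X] RC p) = eval 0 (eval 0 p) := by
    intro p
    have h : πC.comp (algebraMap EE[X][X] RC) = (evalRingHom (0 : EE)).comp (evalRingHom (0 : EE[X])) := by
      apply Polynomial.ringHom_ext
      · intro q
        have h5 : (πC.comp (algebraMap EE[X][X] RC)).comp C =
            ((evalRingHom (0 : EE)).comp (evalRingHom (0 : EE[X]))).comp C := by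
          apply Polynomial.ringHom_ext
          · intro e
            have := πC_e e
            simp only [RingHom.comp_apply, coe_evalRingHom, eval_C]
            exact this
          · have := πC_u
            simp only [RingHom.comp_apply, coe_evalRingHom, eval_C, eval_X]
            exact this
        exact congrArg (fun f => f q) h5
      · have := πC_v
        simp only [RingHom.comp_apply, coe_evalRingHom, eval_X, eval_zero]
        exact this
    exact congrArg (fun f => f p) h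
  have h1 : πC z = eval 0 (eval 0 z.re) := by
    conv_lhs => rw [q_eta z]
    rw [map_add, map_mul, hP]
    have : πC (qw (dG EE xE)) = 0 := πC_w
    rw [this, mul_zero, add_zero]
  rw [h1] at hz
  obtain ⟨r1, hr1⟩ := X_dvd_sub_C (p := z.re)
  have h2 : eval 0 (z.re.coeff 0) = 0 := by
    rw [coeff_zero_eq_eval_zero]; exact hz
  have h3 : X ∣ z.re.coeff 0 := by rw [X_dvd_iff, coeff_zero_eq_eval_zero]; exact h2
  obtain ⟨r2, hr2⟩ := h3
  refine ⟨algebraMap _ RC (C r2), algebraMap _ RC r1, algebraMap _ RC z.im, ?_⟩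
  have h4 : z.re = C X * C r2 + X * r1 := by
    rw [← C_mul, ← hr2, ← hr1]; ring
  conv_lhs => rw [q_eta z, h4]
  rw [map_add, map_mul, map_mul]
  unfold uC vC wC uG vG wG
  ring

lemma πC_ne_zero (x0 : XC) (hu : uC ∈ x0.asIdeal) (hv : vC ∈ x0.asIdeal) (hw : wC ∈ x0.asIdeal)
    (f0 : RC) (hf : f0 ∉ x0.asIdeal) : πC f0 ≠ 0 := by
  intro h
  obtain ⟨a, b, c, habc⟩ := ker_πC f0 h
  apply hf
  rw [habc]
  exact x0.asIdeal.add_mem (x0.asIdeal.add_mem (x0.asIdeal.mul_mem_left _ hu) (x0.asIdeal.mul_mem_left _ hv))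
    (x0.asIdeal.mul_mem_left _ hw)

lemma uC_ne_zero : uC ≠ 0 := by
  intro h
  have h1 := congrArg QuadraticAlgebra.re h
  have h2 : (C X : EE[X][X]) = 0 := h1
  exact X_ne_zero (C_eq_zero.1 h2)

/-- the further coordinates -/
noncomputable def zC : Fin 3 → RC := ![uC, vC, wC]

lemma rc_hom_ext (T : Type) (_ : CommRing T) (a b : RC →+* T)
    (h1 : ∀ c : ℂ, a (algebraMap ℂ RC c) = b (algebraMap ℂ RC c))
    (h2 : a xC = b xC) (h3 : a yC = b yC) (h4 : ∀ j, a (zC j) = b (zC j)) : a = b := by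
  apply rg_hom_ext
  · intro e
    have h : a.comp (eG EE xE) = b.comp (eG EE xE) := by
      apply ee_hom_ext
      · intro c
        exact h1 c
      · exact h2
      · exact h3
    exact congrArg (fun f => f e) h
  · exact h4 0
  · exact h4 1
  · exact h4 2

section
variable (V : XC.Opens) (f0 : RC) (hle : ∀ z : XC, f0 ∉ z.asIdeal → z ∈ V)
variable {F : Type} [Field F] (i : ℂ →+* F)

/-- `V_F` -/
noncomputable abbrev WC : Scheme.{0} := pullback (V.ι ≫ sC) (Spec.map (CommRingCat.ofHom i))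
/-- the map from `V_F` to `X` -/
noncomputable abbrev aC : WC V i ⟶ Spec (.of RC) := pullback.fst _ _ ≫ V.ι
/-- the map from `V_F` to `Spec F` -/
noncomputable abbrev tC : WC V i ⟶ Spec (.of F) := pullback.snd _ _

lemma wc_comp (c : ℂ) : (gam (tC V i)).hom (i c) = (gam (aC V i)).hom (algebraMap ℂ RC c) := by
  have h1 : tC V i ≫ Spec.map (CommRingCat.ofHom i) = aC V i ≫ sC := by
    rw [Category.assoc]
    exact pullback.condition.symm
  have h2 := congrArg (fun f => (gam f).hom c) h1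
  simp only [gam_spec] at h2
  exact h2

lemma wc_mono (T : Scheme.{0}) (u v : T ⟶ WC V i) (h1 : u ≫ aC V i = v ≫ aC V i)
    (h2 : u ≫ tC V i = v ≫ tC V i) : u = v := by
  apply pullback.hom_ext
  · rw [← cancel_mono V.ι, Category.assoc, Category.assoc]
    exact h1
  · exact h2

include hle in
lemma exists_wc_lift {T : Type} [CommRing T] (θ : RC →+* T) (jF : F →+* T) (hu : IsUnit (θ f0))
    (hc : ∀ c : ℂ, θ (algebraMap ℂ RC c) = jF (i c)) :
    ∃ β : Spec (.of T) ⟶ WC V i, β ≫ aC V i = Spec.map (CommRingCat.ofHom θ) ∧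
      β ≫ tC V i = Spec.map (CommRingCat.ofHom jF) := by
  have hrange : Set.range (Spec.map (CommRingCat.ofHom θ)) ⊆ Set.range V.ι := by
    rintro _ ⟨z, rfl⟩
    rw [Scheme.Opens.range_ι]
    apply hle
    intro h
    have h1 : θ f0 ∈ z.asIdeal := h
    exact z.isPrime.ne_top (Ideal.eq_top_of_isUnit_mem _ h1 hu)
  have hfac := IsOpenImmersion.lift_fac V.ι (Spec.map (CommRingCat.ofHom θ)) hrange
  refine ⟨pullback.lift (IsOpenImmersion.lift V.ι (Spec.map (CommRingCat.ofHom θ)) hrange)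
    (Spec.map (CommRingCat.ofHom jF)) ?_, ?_, ?_⟩
  · rw [← Category.assoc, hfac, ← Spec.map_comp, ← Spec.map_comp, ← CommRingCat.ofHom_comp,
      ← CommRingCat.ofHom_comp]
    congr 2
    ext c
    exact hc c
  · rw [pullback.lift_fst_assoc, hfac]
  · rw [pullback.lift_snd]

instance locallyOfFiniteType_sC : LocallyOfFiniteType sC := by
  rw [HasRingHomProperty.Spec_iff (P := @LocallyOfFiniteType)]
  change (algebraMap ℂ RC).FiniteType
  rw [RingHom.finiteType_algebraMap]
  infer_instance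

instance locallyOfFiniteType_tC : LocallyOfFiniteType (tC V i) := by
  have h : LocallyOfFiniteType (V.ι ≫ sC) := inferInstance
  exact inferInstanceAs (LocallyOfFiniteType (pullback.snd (V.ι ≫ sC) (Spec.map (CommRingCat.ofHom i))))

lemma gam_w_eq_zero {C : Scheme.{0}} [IsIntegral C] (b : C ⟶ Spec (.of RC)) (h : (gam b).hom uC = 0)
    (h' : (gam b).hom vC = 0) : (gam b).hom wC = 0 := by
  have h1 : ((gam b).hom wC) ^ 2 = 0 := by
    rw [← map_pow, wC_sq, map_mul, map_add, map_pow, map_sub, map_mul, map_pow, map_pow, map_pow, h, h']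
    ring
  exact pow_eq_zero_iff (two_ne_zero) |>.mp h1

include hle in
lemma isSquare_of_mem_Ratz (H : ℂ[X]) (hH : H ≠ 0) (hXH : (X ^ 3 - X : ℂ[X]) ∣ H)
    (hdiv : πC f0 ∣ H.eval₂ (algebraMap ℂ EE) xE) (z : WC V i →₀ ℤ) (hz : z ∈ Rat (WC V i)) :
    IsSquare (thetaC (NN (A := .of RC) xC uC (aC V i) (tC V i)) z) := by
  have hN : ∀ w, NN (A := .of RC) xC uC (aC V i) (tC V i) w ≠ 0 := NN_ne_zero (A := .of RC) xC uC _ _ isUnit_xC
  refine isSquare_thetaC_of_mem _ hN z hz ?_
  intro C hC p hp hdvr g d hg hd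
  by_cases ht : (gam (p ≫ aC V i)).hom uC = 0 ∧ (gam (p ≫ aC V i)).hom vC = 0
  · have hr := gam_w_eq_zero (p ≫ aC V i) ht.1 ht.2
    obtain ⟨θ, hθ⟩ : ∃ θ : RC →+* RH i H, θ = (θE i H hXH).comp πC := ⟨_, rfl⟩
    have hθ1 : ∀ w, θ w = θE i H hXH (πC w) := by intro w; rw [hθ]; rfl
    have hu : IsUnit (θ f0) := by
      rw [hθ1]
      exact isUnit_of_dvd_unit (map_dvd (θE i H hXH) hdiv) (isUnit_θE_H i H hXH)
    have hc : ∀ c : ℂ, θ (algebraMap ℂ RC c) = algebraMap F (RH i H) (i c) := by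
      intro c
      rw [hθ1, πC_alg, θE_alg]
    obtain ⟨β, hβ1, hβ2⟩ := exists_wc_lift V f0 hle i θ (algebraMap F (RH i H)) hu hc
    have hX : (X : ℂ[X]) ∣ H := (Dvd.intro (X ^ 2 - 1) (by ring)).trans hXH
    exact isSquare_case2z (A := .of RC) i H hH hX (algebraMap ℂ RC) xC yC zC (aC V i) (tC V i) p (wc_comp V i) yC_sq
      β θ hβ1 hβ2 (wc_mono V i) hc (by rw [hθ1, πC_x, θE_x]) (by rw [hθ1, πC_y, θE_y])
      (by
        intro j
        rw [hθ1]
        fin_cases j
        · change θE i H hXH (πC uC) = 0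
          rw [πC_u, map_zero]
        · change θE i H hXH (πC vC) = 0
          rw [πC_v, map_zero]
        · change θE i H hXH (πC wC) = 0
          rw [πC_w, map_zero]) rc_hom_ext
      (by
        intro j
        fin_cases j
        · exact ht.1
        · exact ht.2
        · exact hr) uC ht.1 isUnit_xC hdvr g hg d hd
  · refine isSquare_thetaC_push _ hN p d ?_
    intro c hc
    by_cases h0 : ev (aC V i) (p c) uC = 0
    · rw [NN_of_zero (A := .of RC) xC uC (aC V i) (tC V i) _ h0]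
      apply isSquare_of_isSquare
      rw [← ev_comp]
      have hd1 := hdvr c (hd.isZeroCycle c hc)
      refine isSquare_ev_of_curvez (A := .of RC) xC uC vC wC wC_sq (p ≫ aC V i) c ?_ ?_
      · by_contra hcon
        push Not at hcon
        exact ht hcon
      · rw [ev_comp, h0, map_zero]
    · rw [NN_of_ne (A := .of RC) xC uC (aC V i) (tC V i) _ h0, one_pow]
      exact IsSquare.one

lemma isSquare_of_pushz {V' : Scheme.{0}} (f : V' ⟶ V.toScheme) (res : IsResolution (V.ι ≫ sC) f)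
    (z' : (pullback f (pullback.fst (V.ι ≫ sC) (Spec.map (CommRingCat.ofHom i))) : Scheme.{0}) →₀ ℤ) :
    IsSquare (thetaC (NN (A := .of RC) xC uC (aC V i) (tC V i))
      (push (pullback.snd f (pullback.fst (V.ι ≫ sC) (Spec.map (CommRingCat.ofHom i)))) z')) := by
  have hN : ∀ w, NN (A := .of RC) xC uC (aC V i) (tC V i) w ≠ 0 := NN_ne_zero (A := .of RC) xC uC _ _ isUnit_xC
  have hsm := res.smooth
  obtain ⟨U, hU, hU', hiso⟩ := res.birational
  refine isSquare_thetaC_push _ hN _ z' ?_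
  intro w hw
  by_cases h0 : ev (aC V i) ((pullback.snd f (pullback.fst (V.ι ≫ sC) (Spec.map (CommRingCat.ofHom i)))) w) uC = 0
  · rw [NN_of_zero (A := .of RC) xC uC (aC V i) (tC V i) _ h0]
    apply isSquare_of_isSquare
    have hq : (pullback.snd f (pullback.fst (V.ι ≫ sC) (Spec.map (CommRingCat.ofHom i)))) ≫ aC V i =
        pullback.fst f (pullback.fst (V.ι ≫ sC) (Spec.map (CommRingCat.ofHom i))) ≫ (f ≫ V.ι) := by
      rw [← Category.assoc, ← pullback.condition, Category.assoc]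
    have h1 : ev ((pullback.snd f (pullback.fst (V.ι ≫ sC) (Spec.map (CommRingCat.ofHom i)))) ≫ aC V i) w uC = 0 := by
      rw [ev_comp, h0, map_zero]
    rw [← ev_comp, hq, ev_comp]
    rw [hq, ev_comp] at h1
    apply IsSquare.map
    have h2 := (map_eq_zero _).mp h1
    refine isSquare_ev_of_smoothz (A := .of RC) xC uC vC wC wC_sq (f ≫ V.ι ≫ sC) (f ≫ V.ι) ?_ _ h2
    intro O hO
    exact dense_of_resolution (A := .of RC) V V' f U hU' hiso uC uC_ne_zero O hO
  · rw [NN_of_ne (A := .of RC) xC uC (aC V i) (tC V i) _ h0, one_pow]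
    exact IsSquare.one

end

lemma exists_f0z (V : XC.Opens) (x0 : XC) (hx : x0 ∈ V) :
    ∃ f0 : RC, f0 ∉ x0.asIdeal ∧ ∀ z : XC, f0 ∉ z.asIdeal → z ∈ V := by
  obtain ⟨_, ⟨f0, rfl⟩, hx0, hle⟩ :=
    PrimeSpectrum.isTopologicalBasis_basic_opens.exists_subset_of_mem_open (a := x0) (u := (V : Set XC)) hx V.isOpen
  exact ⟨f0, hx0, fun z hz => hle hz⟩

/-- `X` does not have property (U) at the points of the vertex curve -/
theorem not_HasUz (x0 : XC) (hu0 : uC ∈ x0.asIdeal) (hv0 : vC ∈ x0.asIdeal) (hw0 : wC ∈ x0.asIdeal) :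
    ¬ HasU sC x0 := by
  rintro ⟨V, hxV, V', f, res, triv⟩
  obtain ⟨f0, hf0, hle⟩ := exists_f0z V x0 hxV
  have hne := πC_ne_zero x0 hu0 hv0 hw0 f0 hf0
  obtain ⟨H, hH, hXH, hdiv⟩ := exists_H (πC f0) hne
  obtain ⟨F, hF, i, jE, hjE, hji, hns⟩ := exists_F
  have hN : ∀ w, NN (A := .of RC) xC uC (aC V i) (tC V i) w ≠ 0 := NN_ne_zero (A := .of RC) xC uC _ _ isUnit_xC
  -- the generic point of the vertex curve
  have hu : IsUnit ((jE.comp πC) f0) := by
    apply IsUnit.mk0
    change jE (πC f0) ≠ 0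
    rw [Ne, map_eq_zero_iff jE hjE]
    exact hne
  obtain ⟨e, he1, he2⟩ := exists_wc_lift V f0 hle i (jE.comp πC) (RingHom.id F) hu (by
    intro c
    change jE (πC _) = i c
    rw [πC_alg, hji])
  have he3 : e ≫ tC V i = 𝟙 _ := by
    rw [he2]
    exact Spec.map_id _
  let pt : Spec (.of F) := ⟨⊥, Ideal.isPrime_bot⟩
  have hcl := isClosed_section (tC V i) e he3 pt
  obtain ⟨z', hz', hrat⟩ := (triv F hF i).1 (Finsupp.single (e pt) 1) (by
    intro x hx
    have : x = e pt := by
      have := Finsupp.support_single_subset hx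
      simpa using this
    rw [this]
    exact hcl)
  have h1 := isSquare_of_mem_Ratz V f0 hle i H hH hXH hdiv _ hrat
  have h2 := isSquare_of_pushz V i f res z'
  have h3 : IsSquare (thetaC (NN (A := .of RC) xC uC (aC V i) (tC V i)) (Finsupp.single (e pt) 1)) := by
    have h4 := thetaC_add (NN (A := .of RC) xC uC (aC V i) (tC V i)) hN (Finsupp.single (e pt) 1 -
      push (pullback.snd f (pullback.fst (V.ι ≫ sC) (Spec.map (CommRingCat.ofHom i)))) z')
      (push (pullback.snd f (pullback.fst (V.ι ≫ sC) (Spec.map (CommRingCat.ofHom i)))) z')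
    rw [sub_add_cancel] at h4
    rw [h4]
    exact h1.mul h2
  rw [thetaC_single, zpow_one] at h3
  have h5 : ∀ z, ev (aC V i) (e pt) z = ev (tC V i) (e pt) (jE (πC z)) := by
    intro z
    exact ev_section (aC V i) (tC V i) e he3 (jE.comp πC) he1 pt z
  rw [NN_of_zero (A := .of RC) xC uC (aC V i) (tC V i) _ (by rw [h5, πC_u, map_zero, map_zero]), h5,
    nrm_section (tC V i) e he3, πC_x] at h3
  exact hns h3

end H45.PC
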