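import Mathlib
import Pool.Agent.H45.PC.RD
import Pool.Agent.H45.PC.N1
import Pool.Agent.H45.PC.N2
import Pool.Agent.H45.CH0Sm
set_option autoImplicit false

/-! # `X` and `Y` are normal -/

namespace H45.PC
open Polynomial H45.CH0

lemma isIntegrallyClosed_quad_unit {R : Type} [CommRing R] [IsDomain R] [IsIntegrallyClosed R]
    (h2 : IsUnit (2 : R)) (d : R) (hd : IsUnit d) (hNS : NS d) :
    IsIntegrallyClosed (QuadraticAlgebra R d 0) := by
  apply isIntegrallyClosed_quad h2 d hNS
  intro a b _ hab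
  have h1 : b ^ 2 ∣ a ^ 2 := (IsUnit.dvd_mul_left hd).1 hab
  rwa [IsIntegrallyClosed.pow_dvd_pow_iff two_ne_zero] at h1

section
variable (E : Type) [CommRing E] [IsDomain E] (x : E)

omit [IsDomain E] in
lemma dG_expand : dG E x = C (C x ^ 3) * X ^ 4 + C (-2 * C x ^ 2 * X ^ 2) * X ^ 2 + C (C x * (X ^ 4 + X ^ 5)) := by
  unfold dG
  simp only [C_mul, C_pow, C_add, C_neg]
  have : (C (2 : E[X]) : E[X][X]) = 2 := map_ofNat C 2
  rw [this]
  ring

lemma natDegree_dG (hx : x ≠ 0) : (dG E x).natDegree = 4 := by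
  rw [dG_expand]
  have h : (C x ^ 3 : E[X]) ≠ 0 := pow_ne_zero 3 (C_ne_zero.2 hx)
  compute_degree!

lemma leadingCoeff_dG (hx : x ≠ 0) : (dG E x).leadingCoeff = C x ^ 3 := by
  rw [leadingCoeff, natDegree_dG E x hx, dG_expand]
  simp only [coeff_add, coeff_C_mul, coeff_X_pow, coeff_C]
  norm_num

omit [IsDomain E] in
lemma bezout_dG :
    (16 * (C X) ^ 4 - 16 * (C X) ^ 2 * (((C X) ^ 2 - C (C x) * X ^ 2) - (C X) ^ 3)) * dG E x +
      (4 * X * (C X) ^ 2 * (((C X) ^ 2 - C (C x) * X ^ 2) - (C X) ^ 3)) * derivative (dG E x) =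
      C (16 * C x * X ^ 9 * (X + 1)) := by
  have hd : derivative (dG E x) = C (C x) * (2 * ((C X) ^ 2 - C (C x) * X ^ 2) * (- C (C x) * (2 * X))) := by
    have h0 : dG E x = C (C x) * ((C (X * X) - C (C x) * (X * X)) * (C (X * X) - C (C x) * (X * X)) + C (X ^ 5)) := by
      unfold dG
      simp only [C_mul, C_pow]
      ring
    rw [h0]
    simp only [derivative_mul, derivative_add, derivative_sub, derivative_C, derivative_X, C_mul]
    ring
  rw [hd]
  have h16 : (C (16 : E[X]) : E[X][X]) = 16 := map_ofNat C 16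
  simp only [C_mul, C_pow, C_add, C_1, h16]
  unfold dG
  ring

theorem isIntegrallyClosed_RG [IsIntegrallyClosed E] (h2 : IsUnit (2 : E)) (hx : IsUnit x) :
    IsIntegrallyClosed (RG E x) := by
  have h2' : IsUnit (2 : E[X][X]) := by
    have := (h2.map (C : E →+* E[X])).map (C : E[X] →+* E[X][X])
    rwa [map_ofNat, map_ofNat] at this
  apply isIntegrallyClosed_quad h2' (dG E x) (NS_dG E x hx.ne_zero)
  intro a b hb hab
  refine dvd_of_sq_dvd (dG E x) ?_ _ _ _ ?_ (bezout_dG E x) a b hb hab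
  · rw [leadingCoeff_dG E x hx.ne_zero]
    exact (hx.map C).pow 3
  · have h16 : (16 : E[X]) ≠ 0 := by
      have := ((h2.map (C : E →+* E[X])).pow 4).ne_zero
      rw [map_ofNat] at this
      norm_num at this
      exact this
    refine mul_ne_zero (mul_ne_zero (mul_ne_zero h16 (C_ne_zero.2 hx.ne_zero)) (pow_ne_zero 9 X_ne_zero)) ?_
    exact X_add_C_ne_zero 1

end

instance : IsIntegrallyClosed P0 :=
  isIntegrallyClosed_of_isLocalization (R := ℂ[X]) P0 (Submonoid.powers (X ^ 3 - X : ℂ[X]))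
    (powers_le_nonZeroDivisors_of_noZeroDivisors X3_ne)

instance : IsIntegrallyClosed EE := isIntegrallyClosed_quad_unit isUnit_two _ isUnit_d NS_d

instance : IsIntegrallyClosed KK := isIntegrallyClosed_quad_unit isUnit_two _ isUnit_xE NS_xE

theorem isIntegrallyClosed_RC : IsIntegrallyClosed RC := isIntegrallyClosed_RG EE xE isUnit_two isUnit_xE

theorem isIntegrallyClosed_RQ : IsIntegrallyClosed RQ := isIntegrallyClosed_RG KK 1 isUnit_two isUnit_one

theorem isIntegrallyClosed_RD : IsIntegrallyClosed RD := by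
  have := isIntegrallyClosed_RQ
  exact IsIntegrallyClosed.of_equiv eQ.symm

end H45.PC
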