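import Mathlib
import Pool.Agent.H45.PC.RD
import Pool.Agent.H45.PC.CH
import Pool.Agent.H45.PC.GL
import Pool.Agent.H45.CH0Pos
set_option autoImplicit false

/-! # The resolution of `Y` -/

namespace H45.PC
open Polynomial AlgebraicGeometry CategoryTheory CategoryTheory.Limits H45.CH0

/-- first chart -/
noncomputable def ψ1 : RD →+* AG KK := (φ1 KK).comp toRQ
/-- second chart -/
noncomputable def ψ2 : RD →+* BG KK := (φ2 KK).comp toRQ

lemma ψ1_κ (k : KK) : ψ1 (κD k) = C (C k) := by
  unfold ψ1 φ1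
  rw [RingHom.comp_apply, toRQ_κD, rgLift_e]
  rfl

lemma ψ2_κ (k : KK) : ψ2 (κD k) = eB KK k := by
  unfold ψ2 φ2
  rw [RingHom.comp_apply, toRQ_κD, rgLift_e]

/-- coordinates on `Y` -/
noncomputable def uD : RD := toRD (uG KK 1)
/-- coordinates on `Y` -/
noncomputable def vD : RD := toRD (vG KK 1)
/-- coordinates on `Y` -/
noncomputable def wD : RD := toRD (wG KK 1)

lemma ψ1_u : ψ1 uD = u1 KK := by
  unfold ψ1 φ1 uD
  rw [RingHom.comp_apply, toRQ_toRD, rgLift_u]

lemma ψ1_v : ψ1 vD = X * u1 KK := by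
  unfold ψ1 φ1 vD
  rw [RingHom.comp_apply, toRQ_toRD, rgLift_v]

lemma ψ1_w : ψ1 wD = C X * (u1 KK) ^ 2 := by
  unfold ψ1 φ1 wD
  rw [RingHom.comp_apply, toRQ_toRD, rgLift_w]

lemma ψ2_u : ψ2 uD = σB KK * vB KK := by
  unfold ψ2 φ2 uD
  rw [RingHom.comp_apply, toRQ_toRD, rgLift_u]

lemma ψ2_v : ψ2 vD = vB KK := by
  unfold ψ2 φ2 vD
  rw [RingHom.comp_apply, toRQ_toRD, rgLift_v]

lemma ψ2_w : ψ2 wD = ωB KK * (vB KK) ^ 2 := by
  unfold ψ2 φ2 wD
  rw [RingHom.comp_apply, toRQ_toRD, rgLift_w]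

lemma rd_hom_ext {T : Type} [CommRing T] (a b : RD →+* T) (h1 : ∀ k : KK, a (κD k) = b (κD k))
    (h2 : a uD = b uD) (h3 : a vD = b vD) (h4 : a wD = b wD) : a = b := by
  have h : a.comp toRD = b.comp toRD := by
    apply rg_hom_ext
    · intro k
      rw [RingHom.comp_apply, RingHom.comp_apply, toRD_e, h1]
    · exact h2
    · exact h3
    · exact h4
  ext z
  rw [← toRD_toRQ z]
  exact congrArg (fun f => f (toRQ z)) h

lemma κD_alg (c : ℂ) : κD (algebraMap ℂ KK c) = algebraMap ℂ RD c := by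
  have h1 : algebraMap ℂ KK c = algebraMap EE KK (algebraMap ℂ EE c) := rfl
  rw [h1, κD_C]
  rfl

lemma ψ1_alg (c : ℂ) : ψ1 (algebraMap ℂ RD c) = algebraMap ℂ (AG KK) c := by
  rw [← κD_alg, ψ1_κ]
  rfl

lemma ψ2_alg (c : ℂ) : ψ2 (algebraMap ℂ RD c) = algebraMap ℂ (BG KK) c := by
  rw [← κD_alg, ψ2_κ]
  rfl

/-- first inclusion -/
noncomputable abbrev L1 : CommRingCat.of (AG KK) ⟶ CommRingCat.of (CG KK) := CommRingCat.ofHom (l1 KK)
/-- second inclusion -/
noncomputable abbrev L2 : CommRingCat.of (BG KK) ⟶ CommRingCat.of (CG KK) := CommRingCat.ofHom (l2 KK)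

instance immL1 : IsOpenImmersion (Spec.map L1) :=
  IsOpenImmersion.of_isLocalization (R := AG KK) (S := CG KK) (X : KK[X][X])

instance immL2 : IsOpenImmersion (Spec.map L2) := by
  let _ : Algebra (BG KK) (CG KK) := (l2 KK).toAlgebra
  have h : IsLocalization.Away (σB KK) (CG KK) := away_l2 KK
  exact IsOpenImmersion.of_isLocalization (R := BG KK) (S := CG KK) (σB KK)

/-- the resolution of `Y` -/
noncomputable abbrev VR : Scheme.{0} := VG L1 L2

lemma hψ : CommRingCat.ofHom ψ1 ≫ L1 = CommRingCat.ofHom ψ2 ≫ L2 := by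
  ext z
  exact congrArg (fun f => f (toRQ z)) (l1_φ1 KK)

/-- the map from the resolution -/
noncomputable def gR : VR ⟶ Spec (.of RD) := glueMap L1 L2 (CommRingCat.ofHom ψ1) (CommRingCat.ofHom ψ2) hψ

instance : IsNoetherianRing RD := Algebra.FiniteType.isNoetherianRing ℂ RD

instance : Algebra.FiniteType ℂ KK := by
  have h := q_finite xE
  have h2 : Algebra.FiniteType EE KK := inferInstance
  exact Algebra.FiniteType.trans (S := EE) inferInstance h2

instance : Algebra.FiniteType ℂ (AG KK) := by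
  have h1 : Algebra.FiniteType ℂ KK[X] := Algebra.FiniteType.trans (S := KK) inferInstance inferInstance
  exact Algebra.FiniteType.trans (S := KK[X]) inferInstance inferInstance

instance : Algebra.FiniteType ℂ (BG KK) := by
  have h := q_finite (dB KK)
  have h2 : Algebra.FiniteType KK[X][X] (BG KK) := inferInstance
  exact Algebra.FiniteType.trans (S := KK[X][X]) inferInstance h2

lemma ψ1_finiteType : ψ1.FiniteType := by
  have h1 : (algebraMap ℂ (AG KK)).FiniteType := by
    rw [RingHom.finiteType_algebraMap]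
    infer_instance
  have h2 : ψ1.comp (algebraMap ℂ RD) = algebraMap ℂ (AG KK) := RingHom.ext ψ1_alg
  rw [← h2] at h1
  exact RingHom.FiniteType.of_comp_finiteType h1

lemma ψ2_finiteType : ψ2.FiniteType := by
  have h1 : (algebraMap ℂ (BG KK)).FiniteType := by
    rw [RingHom.finiteType_algebraMap]
    infer_instance
  have h2 : ψ2.comp (algebraMap ℂ RD) = algebraMap ℂ (BG KK) := RingHom.ext ψ2_alg
  rw [← h2] at h1
  exact RingHom.FiniteType.of_comp_finiteType h1

lemma mem_range_of_sq {R K : Type} [CommRing R] [IsDomain R] [ValuationRing R] [Field K] [Algebra R K]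
    [IsFractionRing R K] (z : K) (h : z ^ 2 ∈ (algebraMap R K).range) : z ∈ (algebraMap R K).range := by
  obtain ⟨r, hr⟩ := h
  have h1 : IsIntegral R (z ^ 2) := by
    rw [← hr]
    exact isIntegral_algebraMap
  exact IsIntegrallyClosed.exists_algebraMap_eq_of_isIntegral_pow two_pos h1

lemma poly_mem {E T : Type} [CommRing E] [CommRing T] (S : Subring T) (g : E[X][X] →+* T)
    (h1 : ∀ e : E, g (C (C e)) ∈ S) (h2 : g (C X) ∈ S) (h3 : g X ∈ S) (b : E[X][X]) : g b ∈ S := by
  have h4 : ∀ p : E[X], g (C p) ∈ S := by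
    intro p
    induction p using Polynomial.induction_on' with
    | add p q hp hq =>
      rw [C_add, map_add]
      exact S.add_mem hp hq
    | monomial n a =>
      rw [← C_mul_X_pow_eq_monomial, C_mul, C_pow, map_mul, map_pow]
      exact S.mul_mem (h1 a) (S.pow_mem h2 n)
  induction b using Polynomial.induction_on' with
  | add p q hp hq =>
    rw [map_add]
    exact S.add_mem hp hq
  | monomial n a =>
    rw [← C_mul_X_pow_eq_monomial, map_mul, map_pow]
    exact S.mul_mem (h4 a) (S.pow_mem h3 n)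

instance properR : IsProper gR := by
  unfold gR
  refine glue_proper L1 L2 _ _ hψ (X : KK[X][X]) (σB KK) (away_l1 KK) (away_l2 KK) (l1ρ_l2σ KK)
    ψ1_finiteType ψ2_finiteType ?_ ?_
  · intro R K _ _ _ _ _ _ g h1 h2
    apply poly_mem
    · intro e
      have := h1 (κD e)
      rwa [CommRingCat.hom_ofHom, ψ1_κ] at this
    · apply mem_range_of_sq
      have h3 : (C X : KK[X][X]) ^ 2 = u1 KK + (1 - X ^ 2) ^ 2 := by unfold u1; ring
      rw [← map_pow, h3, map_add, map_pow, map_sub, map_pow, map_one]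
      have h4 := h1 uD
      rw [CommRingCat.hom_ofHom, ψ1_u] at h4
      exact add_mem h4 (pow_mem (sub_mem (one_mem _) (pow_mem h2 2)) 2)
    · exact h2
  · intro R K _ _ _ _ _ _ g h1 h2
    have hv : g (vB KK) ∈ (algebraMap R K).range := by
      have h4 := h1 vD
      rwa [CommRingCat.hom_ofHom, ψ2_v] at h4
    have hP : ∀ p : KK[X][X], g (algebraMap KK[X][X] (BG KK) p) ∈ (algebraMap R K).range := by
      intro p
      apply poly_mem _ (g.comp (algebraMap KK[X][X] (BG KK)))
      · intro e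
        have := h1 (κD e)
        rwa [CommRingCat.hom_ofHom, ψ2_κ] at this
      · exact hv
      · exact h2
    have hω : g (ωB KK) ∈ (algebraMap R K).range := by
      apply mem_range_of_sq
      rw [← map_pow, ωB_sq, map_add, map_pow, map_sub, map_pow, map_one, map_mul, map_pow]
      exact add_mem (pow_mem (sub_mem (pow_mem h2 2) (one_mem _)) 2) (mul_mem (pow_mem h2 5) hv)
    intro b
    rw [q_eta b, map_add, map_mul]
    exact add_mem (hP _) (mul_mem (hP _) hω)

end H45.PC
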