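import Mathlib
import Pool.Agent.H45.PC.P0
set_option autoImplicit false

/-! # The resolution of `Y` is a resolution -/

namespace H45.PC
open Polynomial AlgebraicGeometry CategoryTheory CategoryTheory.Limits H45.CH0

instance smooth_KK : Algebra.Smooth ℂ KK := by
  have h1 : Algebra.Etale EE KK := etale_quad xE isUnit_xE isUnit_two
  exact Algebra.Smooth.comp ℂ EE KK

instance smooth_AG : Algebra.Smooth ℂ (AG KK) := by
  have h1 : Algebra.Smooth KK KK[X] := ⟨inferInstance, inferInstance⟩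
  have h2 : Algebra.Smooth ℂ KK[X] := Algebra.Smooth.comp ℂ KK KK[X]
  have h3 : Algebra.Smooth KK[X] KK[X][X] := ⟨inferInstance, inferInstance⟩
  exact Algebra.Smooth.comp ℂ KK[X] KK[X][X]

instance smooth_BGC : Algebra.Smooth ℂ (BG KK) := by
  have h1 : Algebra.Smooth KK (BG KK) := smooth_BG KK isUnit_two
  exact Algebra.Smooth.comp ℂ KK (BG KK)

instance : IsDomain (BG KK) := isDomain_of_NS _ (by
  apply NS_of_odd
  have h1 : (dB KK).natDegree = 5 := by
    unfold dB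
    have hX : (C X : KK[X][X]) ≠ 0 := C_ne_zero.2 X_ne_zero
    have h2 : ((X : KK[X][X]) ^ 5 * C X).natDegree = 5 := by
      rw [natDegree_mul_C X_ne_zero, natDegree_X_pow]
    have h3 : (((X : KK[X][X]) ^ 2 - 1) ^ 2).natDegree < ((X : KK[X][X]) ^ 5 * C X).natDegree := by
      rw [h2]
      have : (((X : KK[X][X]) ^ 2 - 1) ^ 2).natDegree ≤ 4 := by compute_degree
      omega
    rw [natDegree_add_eq_right_of_natDegree_lt h3, h2]
  rw [h1]
  decide)

/-- the variety `Y` -/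
noncomputable abbrev YD : Scheme.{0} := Spec (.of RD)
/-- its structure morphism -/
noncomputable abbrev sD : YD ⟶ Spec (.of ℂ) := Spec.map (CommRingCat.ofHom (algebraMap ℂ RD))
/-- the open subset `Y` of `Y` -/
noncomputable abbrev VD : YD.Opens := ⊤

instance isIso_VD : IsIso VD.ι := inferInstanceAs (IsIso (Scheme.topIso YD).hom)

/-- the resolution of `Y` -/
noncomputable def fR : VR ⟶ VD.toScheme := gR ≫ inv VD.ι

lemma fR_ι : fR ≫ VD.ι = gR := by
  unfold fR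
  rw [Category.assoc, IsIso.inv_hom_id, Category.comp_id]

/-- first chart -/
noncomputable abbrev J1 : Spec (.of (AG KK)) ⟶ VR := pushout.inl (Spec.map L1) (Spec.map L2)
/-- second chart -/
noncomputable abbrev J2 : Spec (.of (BG KK)) ⟶ VR := pushout.inr (Spec.map L1) (Spec.map L2)

lemma J1_gR : J1 ≫ gR = Spec.map (CommRingCat.ofHom ψ1) := pushout.inl_desc _ _ _

lemma J2_gR : J2 ≫ gR = Spec.map (CommRingCat.ofHom ψ2) := pushout.inr_desc _ _ _

lemma hψ1 : ψ1.comp (algebraMap ℂ RD) = algebraMap ℂ (AG KK) := RingHom.ext ψ1_alg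
lemma hψ2 : ψ2.comp (algebraMap ℂ RD) = algebraMap ℂ (BG KK) := RingHom.ext ψ2_alg

lemma J1_s : J1 ≫ gR ≫ sD = Spec.map (CommRingCat.ofHom (algebraMap ℂ (AG KK))) := by
  rw [← Category.assoc, J1_gR, ← Spec.map_comp, ← CommRingCat.ofHom_comp, hψ1]

lemma J2_s : J2 ≫ gR ≫ sD = Spec.map (CommRingCat.ofHom (algebraMap ℂ (BG KK))) := by
  rw [← Category.assoc, J2_gR, ← Spec.map_comp, ← CommRingCat.ofHom_comp, hψ2]

lemma local_smooth : IsZariskiLocalAtSource (@Smooth : MorphismProperty Scheme.{0}) :=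
  HasRingHomProperty.instIsZariskiLocalAtSource (Q := RingHom.Smooth) (P := @Smooth)

lemma smooth_gs : Smooth (gR ≫ sD) := by
  have h0 := local_smooth
  apply glue_local (P := @Smooth) L1 L2
  · change Smooth (J1 ≫ gR ≫ sD)
    rw [J1_s, HasRingHomProperty.Spec_iff (P := @Smooth)]
    change (algebraMap ℂ (AG KK)).Smooth
    rw [RingHom.smooth_algebraMap]
    infer_instance
  · change Smooth (J2 ≫ gR ≫ sD)
    rw [J2_s, HasRingHomProperty.Spec_iff (P := @Smooth)]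
    change (algebraMap ℂ (BG KK)).Smooth
    rw [RingHom.smooth_algebraMap]
    infer_instance

lemma uD_ne_zero : uD ≠ 0 := by
  intro h
  have h1 := congrArg toRQ h
  unfold uD at h1
  rw [toRQ_toRD, map_zero] at h1
  have h2 := congrArg QuadraticAlgebra.re h1
  have h3 : (C X : KK[X][X]) = 0 := h2
  exact X_ne_zero (C_eq_zero.1 h3)

/-- the localization of `RD` -/
noncomputable def qU : RD →+* Localization.Away uD := algebraMap RD (Localization.Away uD)

/-- the inverse of `u` -/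
noncomputable def ηU : Localization.Away uD := IsLocalization.Away.invSelf uD

lemma qU_inv : qU uD * ηU = 1 := IsLocalization.Away.mul_invSelf uD

/-- the rational inverse of the first chart -/
noncomputable def χ1 : AG KK →+* Localization.Away uD :=
  agLift (qU.comp κD) (qU wD * ηU ^ 2) (qU vD * ηU)

lemma wD_sq : wD ^ 2 = (uD ^ 2 - vD ^ 2) ^ 2 + uD ^ 5 := by
  unfold wD uD vD
  have h := congrArg toRD (wG_sq KK 1)
  simp only [map_mul, map_add, map_sub, map_pow, map_one, one_mul] at h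
  exact h

lemma chi_aux {T : Type} [CommRing T] (u v w η : T) (h1 : u * η = 1) (h2 : w ^ 2 = (u ^ 2 - v ^ 2) ^ 2 + u ^ 5) :
    (w * η ^ 2) ^ 2 - (1 - (v * η) ^ 2) ^ 2 = u := by
  have e1 : (1 - (v * η) ^ 2) ^ 2 = (u ^ 2 - v ^ 2) ^ 2 * η ^ 4 := by
    have : (u ^ 2 - v ^ 2) ^ 2 * η ^ 4 = ((u * η) ^ 2 - (v * η) ^ 2) ^ 2 := by ring
    rw [this, h1]; ring
  have e2 : u ^ 5 * η ^ 4 = u := by
    have : u ^ 5 * η ^ 4 = u * (u * η) ^ 4 := by ring
    rw [this, h1]; ring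
  rw [e1]
  linear_combination η ^ 4 * h2 + e2

lemma agLift_u1 {T : Type} [CommRing T] (j : KK →+* T) (ω ρ : T) :
    agLift j ω ρ (u1 KK) = ω ^ 2 - (1 - ρ ^ 2) ^ 2 := by
  unfold u1
  rw [map_sub, map_pow, map_pow, map_sub, map_one, map_pow, agLift_ω, agLift_ρ]

lemma qU_sq : (qU wD) ^ 2 = ((qU uD) ^ 2 - (qU vD) ^ 2) ^ 2 + (qU uD) ^ 5 := by
  have h := congrArg qU wD_sq
  simp only [map_pow, map_add, map_sub] at h
  exact h

lemma χ1_u : χ1 (u1 KK) = qU uD := by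
  unfold χ1
  rw [agLift_u1]
  exact chi_aux (qU uD) (qU vD) (qU wD) ηU qU_inv qU_sq

lemma χ1_ψ1 (z : RD) : χ1 (ψ1 z) = qU z := by
  have h1 := qU_inv
  have h : χ1.comp ψ1 = qU := by
    apply rd_hom_ext
    · intro k
      rw [RingHom.comp_apply, ψ1_κ]
      unfold χ1
      rw [agLift_e]
      rfl
    · rw [RingHom.comp_apply, ψ1_u, χ1_u]
    · rw [RingHom.comp_apply, ψ1_v, map_mul, χ1_u]
      unfold χ1
      rw [agLift_ρ]
      linear_combination (qU vD) * h1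
    · rw [RingHom.comp_apply, ψ1_w, map_mul, map_pow, χ1_u]
      unfold χ1
      rw [agLift_ω]
      linear_combination (qU wD) * (qU uD * ηU + 1) * h1
  exact congrArg (fun f => f z) h

lemma ψ1_injective : Function.Injective ψ1 := by
  have h1 : Function.Injective qU :=
    IsLocalization.injective _ (powers_le_nonZeroDivisors_of_noZeroDivisors uD_ne_zero)
  intro a b hab
  apply h1
  rw [← χ1_ψ1, ← χ1_ψ1, hab]

/-- the elements of the first chart which become regular on `Y` after multiplication by a power of `u` -/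
noncomputable def regS : Subring (AG KK) where
  carrier := {q | ∃ (n : ℕ) (a : RD), ψ1 a = ψ1 uD ^ n * q}
  mul_mem' := by
    rintro q q' ⟨n, a, ha⟩ ⟨m, b, hb⟩
    refine ⟨n + m, a * b, ?_⟩
    rw [map_mul, ha, hb]; ring
  one_mem' := ⟨0, 1, by rw [map_one]; ring⟩
  add_mem' := by
    rintro q q' ⟨n, a, ha⟩ ⟨m, b, hb⟩
    refine ⟨n + m, a * uD ^ m + b * uD ^ n, ?_⟩
    rw [map_add, map_mul, map_mul, map_pow, map_pow, ha, hb]; ring
  zero_mem' := ⟨0, 0, by rw [map_zero]; ring⟩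
  neg_mem' := by
    rintro q ⟨n, a, ha⟩
    exact ⟨n, -a, by rw [map_neg, ha]; ring⟩

lemma mem_regS (q : AG KK) : q ∈ regS := by
  apply poly_mem regS (RingHom.id _)
  · intro k
    exact ⟨0, κD k, by rw [ψ1_κ]; simp⟩
  · exact ⟨2, wD, by rw [ψ1_w, ψ1_u, RingHom.id_apply]; ring⟩
  · exact ⟨1, vD, by rw [ψ1_v, ψ1_u, RingHom.id_apply]; ring⟩

lemma awayMap_bij : Function.Bijective (Localization.awayMap ψ1 uD) := by
  refine ⟨?_, ?_⟩
  · rw [Localization.awayMap_injective_iff]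
    intro a ha
    refine ⟨0, ?_⟩
    have : a = 0 := ψ1_injective (by rw [ha, map_zero])
    rw [this, mul_zero]
  · rw [Localization.awayMap_surjective_iff]
    intro q
    obtain ⟨n, a, h⟩ := mem_regS q
    exact ⟨a, n, h⟩

/-- the open set where `u` does not vanish -/
noncomputable def DU : YD.Opens := PrimeSpectrum.basicOpen uD

lemma mem_DU (y : YD) : y ∈ DU ↔ uD ∉ y.asIdeal := Iff.rfl

lemma J1_mem (a : Spec (.of (AG KK))) : gR (J1 a) ∈ DU ↔ ψ1 uD ∉ a.asIdeal := by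
  have h : gR (J1 a) = Spec.map (CommRingCat.ofHom ψ1) a := by
    rw [← Scheme.Hom.comp_apply, J1_gR]
  rw [h]
  rfl

lemma J2_mem (a : Spec (.of (BG KK))) : gR (J2 a) ∈ DU ↔ ψ2 uD ∉ a.asIdeal := by
  have h : gR (J2 a) = Spec.map (CommRingCat.ofHom ψ2) a := by
    rw [← Scheme.Hom.comp_apply, J2_gR]
  rw [h]
  rfl

lemma mem_range_J1 (v : VR) (hv : gR v ∈ DU) : v ∈ J1.opensRange := by
  rcases glue_cover L1 L2 v with ⟨a, rfl⟩ | ⟨b, rfl⟩
  · exact ⟨a, rfl⟩
  · have h1 : ψ2 uD ∉ b.asIdeal := (J2_mem b).1 hv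
    rw [ψ2_u] at h1
    have h2 : σB KK ∉ b.asIdeal := fun h => h1 (b.asIdeal.mul_mem_right _ h)
    let _ : Algebra (BG KK) (CG KK) := (l2 KK).toAlgebra
    have h3 : IsLocalization.Away (σB KK) (CG KK) := away_l2 KK
    have h4 := PrimeSpectrum.localization_away_comap_range (R := BG KK) (CG KK) (σB KK)
    have h5 : b ∈ ((PrimeSpectrum.basicOpen (σB KK) : TopologicalSpace.Opens (PrimeSpectrum (BG KK))) :
      Set (PrimeSpectrum (BG KK))) := h2
    rw [← h4] at h5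
    obtain ⟨c, hc⟩ := h5
    obtain ⟨c', hc'⟩ : ∃ c' : Spec (.of (CG KK)), c' = c := ⟨_, rfl⟩
    have h6 : Spec.map L2 c' = b := by rw [hc']; exact hc
    refine ⟨Spec.map L1 c', ?_⟩
    rw [← h6]
    exact congrArg (fun (f : Spec (.of (CG KK)) ⟶ VR) => f c') pushout.condition

lemma isIso_gR : IsIso (gR ∣_ DU) := by
  have h1 : IsIso ((J1 ≫ gR) ∣_ DU) := by
    rw [J1_gR]
    exact isIso_restrict_gen (CommRingCat.ofHom ψ1) uD awayMap_bij
  have h2 : IsIso (J1 ∣_ (gR ⁻¹ᵁ DU)) := by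
    apply isIso_of_isOpenImmersion_of_opensRange_eq_top
    rw [eq_top_iff]
    rintro v -
    obtain ⟨a, ha⟩ := mem_range_J1 v.1 v.2
    have hm : a ∈ J1 ⁻¹ᵁ (gR ⁻¹ᵁ DU) := by
      change J1 a ∈ gR ⁻¹ᵁ DU
      rw [ha]
      exact v.2
    refine ⟨⟨a, hm⟩, ?_⟩
    apply Subtype.ext
    exact (morphismRestrict_base_coe J1 (gR ⁻¹ᵁ DU) ⟨a, hm⟩).trans ha
  have h' : IsIso (J1 ∣_ (gR ⁻¹ᵁ DU) ≫ gR ∣_ DU) := by
    rw [← morphismRestrict_comp]
    exact h1
  exact IsIso.of_isIso_comp_left (J1 ∣_ (gR ⁻¹ᵁ DU)) (gR ∣_ DU)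

/-- the open set on which the resolution is an isomorphism -/
noncomputable def UR : VD.toScheme.Opens := VD.ι ⁻¹ᵁ DU

lemma ψ2_u_ne_zero : ψ2 uD ≠ 0 := by
  rw [ψ2_u]
  apply mul_ne_zero
  · intro h
    have h2 := congrArg QuadraticAlgebra.re h
    exact X_ne_zero h2
  · intro h
    have h2 := congrArg QuadraticAlgebra.re h
    have h3 : (C X : KK[X][X]) = 0 := h2
    exact X_ne_zero (C_eq_zero.1 h3)

lemma ψ1_u_ne_zero : ψ1 uD ≠ 0 := by
  intro h
  exact uD_ne_zero (ψ1_injective (by rw [h, map_zero]))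

lemma exists_mem_inter {S : CommRingCat.{0}} [IsDomain S] (O : (Spec S).Opens) (hO : (O : Set (Spec S)).Nonempty)
    (s : S) (hs : s ≠ 0) : ∃ a ∈ O, s ∉ a.asIdeal := by
  have hirr : IrreducibleSpace (PrimeSpectrum S) := inferInstance
  have hpre : PreirreducibleSpace (PrimeSpectrum S) := hirr.toPreirreducibleSpace
  have hD : IsOpen ((PrimeSpectrum.basicOpen s : TopologicalSpace.Opens (PrimeSpectrum S)) : Set (PrimeSpectrum S)) :=
    (PrimeSpectrum.basicOpen s).isOpen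
  obtain ⟨z, -, hz1, hz2⟩ := hpre.isPreirreducible_univ _ _ O.isOpen hD (by
    obtain ⟨z, hz⟩ := hO
    exact ⟨z, trivial, hz⟩) ⟨⟨⊥, Ideal.isPrime_bot⟩, trivial, hs⟩
  exact ⟨z, hz1, hz2⟩

lemma dense_preimage : Dense (gR ⁻¹ᵁ DU : Set VR) := by
  rw [dense_iff_inter_open]
  rintro O hO ⟨v, hv⟩
  let O' : VR.Opens := ⟨O, hO⟩
  have hdA : IsDomain (CommRingCat.of (AG KK)) := inferInstanceAs (IsDomain (AG KK))
  have hdB : IsDomain (CommRingCat.of (BG KK)) := inferInstanceAs (IsDomain (BG KK))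
  rcases glue_cover L1 L2 v with ⟨a, rfl⟩ | ⟨b, rfl⟩
  · obtain ⟨a', h1, h2⟩ := exists_mem_inter (J1 ⁻¹ᵁ O') ⟨a, hv⟩ (ψ1 uD) ψ1_u_ne_zero
    exact ⟨J1 a', h1, (J1_mem a').2 h2⟩
  · obtain ⟨a', h1, h2⟩ := exists_mem_inter (J2 ⁻¹ᵁ O') ⟨b, hv⟩ (ψ2 uD) ψ2_u_ne_zero
    exact ⟨J2 a', h1, (J2_mem a').2 h2⟩

lemma birational_fR : Dense (UR : Set VD.toScheme) ∧ Dense (fR ⁻¹ᵁ UR : Set VR) ∧ IsIso (fR ∣_ UR) := by
  refine ⟨?_, ?_, ?_⟩
  · have hdY : IsDomain (CommRingCat.of RD) := inferInstanceAs (IsDomain RD)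
    apply IsOpen.dense UR.isOpen
    refine ⟨⟨(⟨⊥, Ideal.isPrime_bot⟩ : PrimeSpectrum RD), trivial⟩, ?_⟩
    change (⟨⊥, Ideal.isPrime_bot⟩ : PrimeSpectrum RD) ∈ PrimeSpectrum.basicOpen uD
    rw [PrimeSpectrum.mem_basicOpen]
    exact uD_ne_zero
  · have h1 : fR ⁻¹ᵁ UR = gR ⁻¹ᵁ DU := by
      rw [← fR_ι]; rfl
    rw [h1]
    exact dense_preimage
  · have h1 := isIso_gR
    rw [← fR_ι] at h1
    exact isIso_res_of_comp fR VD.ι DU isIso_VD h1

lemma resolution_fR : IsResolution (VD.ι ≫ sD) fR where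
  isProper := by
    unfold fR
    infer_instance
  smooth := by
    rw [← Category.assoc, fR_ι]
    exact smooth_gs
  birational := ⟨UR, birational_fR⟩

end H45.PC
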