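import Mathlib
import Pool.Agent.H45.PC.P1
import Pool.Agent.H45.PC.LN
set_option autoImplicit false

/-! # `Y` has property (U) -/

namespace H45.PC
open Polynomial AlgebraicGeometry CategoryTheory CategoryTheory.Limits H45.CH0

lemma factor_point {κ : Type} [Field κ] {Z : Scheme.{0}} {S : CommRingCat.{0}} (J : Spec S ⟶ Z) [IsOpenImmersion J]
    (x : Spec (.of κ) ⟶ Z) (pt : Spec (.of κ)) (a : Spec S) (h : J a = x pt) :
    ∃ h : S →+* κ, x = Spec.map (CommRingCat.ofHom h) ≫ J := by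
  have hr : Set.range x ⊆ Set.range J := by
    rintro _ ⟨z, rfl⟩
    have : z = pt := Subsingleton.elim _ _
    rw [this]
    exact ⟨a, h⟩
  refine ⟨(Spec.preimage (IsOpenImmersion.lift J x hr)).hom, ?_⟩
  rw [CommRingCat.ofHom_hom, Spec.map_preimage, IsOpenImmersion.lift_fac]

section
variable {κ : Type} [Field κ]

/-- line in the first chart -/
noncomputable def θ1 (h : AG KK →+* κ) : AG KK →+* κ[X] :=
  agLift ((C : κ →+* κ[X]).comp (h.comp ((C : KK[X] →+* KK[X][X]).comp (C : KK →+* KK[X])))) X (C (h X))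

lemma θ1_eval (h : AG KK →+* κ) : (evalRingHom (h (C X))).comp (θ1 h) = h := by
  unfold θ1
  apply ag_hom_ext
  · intro e
    rw [RingHom.comp_apply, agLift_e]
    simp
  · rw [RingHom.comp_apply, agLift_ω]
    simp
  · rw [RingHom.comp_apply, agLift_ρ]
    simp

lemma θ1_alg (h : AG KK →+* κ) : (θ1 h).comp (algebraMap ℂ (AG KK)) =
    (C : κ →+* κ[X]).comp (h.comp (algebraMap ℂ (AG KK))) := by
  ext c : 1
  have h1 : algebraMap ℂ (AG KK) c = C (C (algebraMap ℂ KK c)) := rfl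
  rw [RingHom.comp_apply, h1]
  unfold θ1
  rw [agLift_e]
  rfl

lemma θ1_u (h : AG KK →+* κ) : ∃ c : κ, (θ1 h).comp ψ1 uD = (X ^ 2 - C c : κ[X]) := by
  refine ⟨(1 - (h X) ^ 2) ^ 2, ?_⟩
  rw [RingHom.comp_apply, ψ1_u]
  unfold θ1
  rw [agLift_u1]
  simp

/-- line in the second chart -/
noncomputable def θ2 (j : KK →+* κ) (ε : κ) (hε : ε ^ 2 = 1) : BG KK →+* κ[X] :=
  bgLift ((C : κ →+* κ[X]).comp j) X 0 (C ε) (by
    rw [← C_pow, hε, C_1]; ring)

lemma θ2_eval (h : BG KK →+* κ) (hσ : h (σB KK) = 0) (hε : (h (ωB KK)) ^ 2 = 1) :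
    (evalRingHom (h (vB KK))).comp (θ2 (h.comp (eB KK)) (h (ωB KK)) hε) = h := by
  unfold θ2
  apply bg_hom_ext
  · intro e
    rw [RingHom.comp_apply, bgLift_e]
    simp
  · rw [RingHom.comp_apply, bgLift_v]
    simp
  · rw [RingHom.comp_apply, bgLift_σ, hσ]
    simp
  · rw [RingHom.comp_apply, bgLift_ω]
    simp

lemma θ2_alg (j : KK →+* κ) (ε : κ) (hε : ε ^ 2 = 1) : (θ2 j ε hε).comp (algebraMap ℂ (BG KK)) =
    (C : κ →+* κ[X]).comp (j.comp (algebraMap ℂ KK)) := by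
  ext c : 1
  have h1 : algebraMap ℂ (BG KK) c = eB KK (algebraMap ℂ KK c) := rfl
  rw [RingHom.comp_apply, h1]
  unfold θ2
  rw [bgLift_e]
  rfl

lemma θ2_v (j : KK →+* κ) (ε : κ) (hε : ε ^ 2 = 1) : (θ2 j ε hε).comp ψ2 vD = (X : κ[X]) := by
  rw [RingHom.comp_apply, ψ2_v]
  unfold θ2
  rw [bgLift_v]

end

lemma hline_J1 (κ : Type) (_ : Field κ) (h : AG KK →+* κ) : ∃ (l : Spec (.of κ[X]) ⟶ VR) (c0 : κ) (θ : RD →+* κ[X]),
    Spec.map (CommRingCat.ofHom (evalRingHom c0)) ≫ l = Spec.map (CommRingCat.ofHom h) ≫ J1 ∧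
    l ≫ (gR ≫ sD) = Spec.map (CommRingCat.ofHom (C : κ →+* κ[X])) ≫ (Spec.map (CommRingCat.ofHom h) ≫ J1) ≫ (gR ≫ sD) ∧
    l ≫ gR = Spec.map (CommRingCat.ofHom θ) ∧ ((∃ c : κ, θ uD = (X ^ 2 - C c : κ[X])) ∨ θ vD = (X : κ[X])) := by
  refine ⟨Spec.map (CommRingCat.ofHom (θ1 h)) ≫ J1, h (C X), (θ1 h).comp ψ1, ?_, ?_, ?_, Or.inl (θ1_u h)⟩
  · rw [← Category.assoc, ← Spec.map_comp, ← CommRingCat.ofHom_comp, θ1_eval]
  · rw [Category.assoc, Category.assoc, J1_s, ← Spec.map_comp, ← Spec.map_comp, ← Spec.map_comp,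
      ← CommRingCat.ofHom_comp, ← CommRingCat.ofHom_comp, ← CommRingCat.ofHom_comp, θ1_alg]
  · rw [Category.assoc, J1_gR, ← Spec.map_comp, ← CommRingCat.ofHom_comp]

lemma hline_VR (κ : Type) (_ : Field κ) (x : Spec (.of κ) ⟶ VR) : ∃ (l : Spec (.of κ[X]) ⟶ VR) (c0 : κ) (θ : RD →+* κ[X]),
    Spec.map (CommRingCat.ofHom (evalRingHom c0)) ≫ l = x ∧
    l ≫ (gR ≫ sD) = Spec.map (CommRingCat.ofHom (C : κ →+* κ[X])) ≫ x ≫ (gR ≫ sD) ∧
    l ≫ gR = Spec.map (CommRingCat.ofHom θ) ∧ ((∃ c : κ, θ uD = (X ^ 2 - C c : κ[X])) ∨ θ vD = (X : κ[X])) := by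
  let pt : Spec (.of κ) := ⟨⊥, Ideal.isPrime_bot⟩
  rcases glue_cover L1 L2 (x pt) with ⟨a, ha⟩ | ⟨b, hb⟩
  · obtain ⟨h, rfl⟩ := factor_point J1 x pt a ha
    exact hline_J1 κ inferInstance h
  · obtain ⟨h, rfl⟩ := factor_point J2 x pt b hb
    by_cases hσ : h (σB KK) = 0
    · have hε : (h (ωB KK)) ^ 2 = 1 := by
        rw [← map_pow, ωB_sq, map_add, map_pow, map_sub, map_pow, map_mul, map_pow, hσ, map_one]
        ring
      refine ⟨Spec.map (CommRingCat.ofHom (θ2 (h.comp (eB KK)) (h (ωB KK)) hε)) ≫ J2, h (vB KK),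
        (θ2 (h.comp (eB KK)) (h (ωB KK)) hε).comp ψ2, ?_, ?_, ?_, Or.inr (θ2_v _ _ hε)⟩
      · rw [← Category.assoc, ← Spec.map_comp, ← CommRingCat.ofHom_comp, θ2_eval h hσ hε]
      · rw [Category.assoc, Category.assoc, J2_s, ← Spec.map_comp, ← Spec.map_comp, ← Spec.map_comp,
          ← CommRingCat.ofHom_comp, ← CommRingCat.ofHom_comp, ← CommRingCat.ofHom_comp, θ2_alg]
        rfl
      · rw [Category.assoc, J2_gR, ← Spec.map_comp, ← CommRingCat.ofHom_comp]
    · let _ : Algebra (BG KK) (CG KK) := (l2 KK).toAlgebra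
      have h3 : IsLocalization.Away (σB KK) (CG KK) := away_l2 KK
      obtain ⟨h12, hh⟩ : ∃ h12 : CG KK →+* κ, h12.comp (l2 KK) = h := by
        refine ⟨IsLocalization.Away.lift (σB KK) (IsUnit.mk0 _ hσ), ?_⟩
        exact IsLocalization.Away.lift_comp (σB KK) (IsUnit.mk0 _ hσ)
      have hx : Spec.map (CommRingCat.ofHom h) ≫ J2 = Spec.map (CommRingCat.ofHom (h12.comp (l1 KK))) ≫ J1 := by
        rw [← hh, CommRingCat.ofHom_comp, CommRingCat.ofHom_comp, Spec.map_comp, Spec.map_comp, Category.assoc,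
          Category.assoc]
        congr 1
        exact pushout.condition.symm
      rw [hx]
      exact hline_J1 κ inferInstance _

lemma hline_VD (κ : Type) (_ : Field κ) (x : Spec (.of κ) ⟶ VD.toScheme) :
    ∃ (l : Spec (.of κ[X]) ⟶ VD.toScheme) (c0 : κ) (θ : RD →+* κ[X]),
    Spec.map (CommRingCat.ofHom (evalRingHom c0)) ≫ l = x ∧
    l ≫ (VD.ι ≫ sD) = Spec.map (CommRingCat.ofHom (C : κ →+* κ[X])) ≫ x ≫ (VD.ι ≫ sD) ∧
    l ≫ VD.ι = Spec.map (CommRingCat.ofHom θ) ∧ ((∃ c : κ, θ uD = (X ^ 2 - C c : κ[X])) ∨ θ vD = (X : κ[X])) := by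
  obtain ⟨h, hh⟩ : ∃ h : RD →+* κ, x ≫ VD.ι = Spec.map (CommRingCat.ofHom h) :=
    ⟨(Spec.preimage (x ≫ VD.ι)).hom, by rw [CommRingCat.ofHom_hom, Spec.map_preimage]⟩
  -- it suffices to find the line for the ring
  obtain ⟨θ, c0, h1, h2, h3⟩ : ∃ (θ : RD →+* κ[X]) (c0 : κ), (evalRingHom c0).comp θ = h ∧
      θ.comp (algebraMap ℂ RD) = (C : κ →+* κ[X]).comp (h.comp (algebraMap ℂ RD)) ∧
      ((∃ c : κ, θ uD = (X ^ 2 - C c : κ[X])) ∨ θ vD = (X : κ[X])) := by
    have hw := congrArg h wD_sq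
    rw [map_pow, map_add, map_pow, map_sub, map_pow, map_pow, map_pow] at hw
    by_cases hu : h uD = 0
    · obtain ⟨ε, hε, hε'⟩ : ∃ ε : κ, ε ^ 2 = 1 ∧ h wD = ε * (h vD) ^ 2 := by
        rw [hu] at hw
        by_cases hv : h vD = 0
        · refine ⟨1, one_pow 2, ?_⟩
          rw [hv] at hw ⊢
          have : h wD = 0 := pow_eq_zero_iff two_ne_zero |>.1 (by rw [hw]; ring)
          rw [this]; ring
        · refine ⟨h wD / (h vD) ^ 2, ?_, ?_⟩
          · field_simp
            rw [hw]; ring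
          · field_simp
      refine ⟨(θ2 (h.comp κD) ε hε).comp ψ2, h vD, ?_, ?_, Or.inr (θ2_v _ _ hε)⟩
      · apply rd_hom_ext
        · intro k
          rw [RingHom.comp_apply, RingHom.comp_apply, ψ2_κ]
          unfold θ2
          rw [bgLift_e]
          simp
        · rw [RingHom.comp_apply, RingHom.comp_apply, ψ2_u]
          unfold θ2
          rw [map_mul, bgLift_σ, zero_mul, map_zero, hu]
        · rw [RingHom.comp_apply, RingHom.comp_apply, ψ2_v]
          unfold θ2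
          rw [bgLift_v]
          simp
        · rw [RingHom.comp_apply, RingHom.comp_apply, ψ2_w]
          unfold θ2
          rw [map_mul, map_pow, bgLift_ω, bgLift_v, hε']
          simp
      · rw [RingHom.comp_assoc, hψ2, θ2_alg, RingHom.comp_assoc]
        congr 2
        ext c : 1
        exact κD_alg c
    · let a : AG KK →+* κ := agLift (h.comp κD) (h wD / (h uD) ^ 2) (h vD / h uD)
      have ha : a.comp ψ1 = h := by
        have hau : a (u1 KK) = h uD := by
          simp only [a]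
          rw [agLift_u1]
          field_simp
          linear_combination hw
        apply rd_hom_ext
        · intro k
          rw [RingHom.comp_apply, ψ1_κ]
          simp only [a]
          rw [agLift_e]
          rfl
        · rw [RingHom.comp_apply, ψ1_u, hau]
        · rw [RingHom.comp_apply, ψ1_v, map_mul, hau]
          simp only [a]
          rw [agLift_ρ]
          field_simp
        · rw [RingHom.comp_apply, ψ1_w, map_mul, map_pow, hau]
          simp only [a]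
          rw [agLift_ω]
          field_simp
      refine ⟨(θ1 a).comp ψ1, a (C X), ?_, ?_, Or.inl (θ1_u a)⟩
      · rw [← RingHom.comp_assoc, θ1_eval, ha]
      · rw [RingHom.comp_assoc, hψ1, θ1_alg, ← hψ1, ← RingHom.comp_assoc (algebraMap ℂ RD) ψ1 a, ha]
  refine ⟨Spec.map (CommRingCat.ofHom θ) ≫ inv VD.ι, c0, θ, ?_, ?_, ?_, h3⟩
  · rw [← Category.assoc, ← Spec.map_comp, ← CommRingCat.ofHom_comp, h1, ← hh, Category.assoc, IsIso.hom_inv_id,
      Category.comp_id]
  · rw [Category.assoc, IsIso.inv_hom_id_assoc, ← Category.assoc x, hh, ← Spec.map_comp, ← Spec.map_comp, ← Spec.map_comp,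
      ← CommRingCat.ofHom_comp, ← CommRingCat.ofHom_comp, ← CommRingCat.ofHom_comp, h2]
  · rw [Category.assoc, IsIso.inv_hom_id, Category.comp_id]

instance locallyOfFiniteType_sD : LocallyOfFiniteType sD := by
  rw [HasRingHomProperty.Spec_iff (P := @LocallyOfFiniteType)]
  change (algebraMap ℂ RD).FiniteType
  rw [RingHom.finiteType_algebraMap]
  infer_instance

instance : IsProper fR := by
  unfold fR
  infer_instance

lemma universal_fR : UnivCH0Trivial (VD.ι ≫ sD) fR := by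
  intro F hF i
  let p1 := pullback.fst (VD.ι ≫ sD) (Spec.map (CommRingCat.ofHom i))
  let p2 := pullback.snd (VD.ι ≫ sD) (Spec.map (CommRingCat.ofHom i))
  let q := pullback.snd fR p1
  have hpb : IsPullback p1 p2 (VD.ι ≫ sD) (Spec.map (CommRingCat.ofHom i)) := IsPullback.of_hasPullback _ _
  have hpb' : IsPullback (pullback.fst fR p1) (q ≫ p2) (fR ≫ (VD.ι ≫ sD)) (Spec.map (CommRingCat.ofHom i)) :=
    (IsPullback.of_hasPullback fR p1).paste_vert hpb
  have e1 : fR ≫ (VD.ι ≫ sD) = gR ≫ sD := by rw [← Category.assoc, fR_ι]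
  rw [e1] at hpb'
  have i1 : LocallyOfFiniteType p2 :=
    inferInstanceAs (LocallyOfFiniteType (pullback.snd (VD.ι ≫ sD) (Spec.map (CommRingCat.ofHom i))))
  have i2 : IsSeparated p2 :=
    inferInstanceAs (IsSeparated (pullback.snd (VD.ι ≫ sD) (Spec.map (CommRingCat.ofHom i))))
  have i3 : IsProper q := inferInstanceAs (IsProper (pullback.snd fR p1))
  have i4 : LocallyOfFiniteType (q ≫ p2) := inferInstance
  have i5 : IsSeparated (q ≫ p2) := inferInstance
  have hW : ∀ z : (pullback (VD.ι ≫ sD) (Spec.map (CommRingCat.ofHom i)) : Scheme.{0}) →₀ ℤ, IsZeroCycle z →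
      z ∈ H45.CH0.Rat (pullback (VD.ι ≫ sD) (Spec.map (CommRingCat.ofHom i))) := by
    intro z hz
    exact all_mem_Rat_line (A := .of RD) i uD vD (VD.ι ≫ sD) VD.ι hline_VD p1 p2 hpb z hz
  have hW' : ∀ z : (pullback fR p1 : Scheme.{0}) →₀ ℤ, IsZeroCycle z → z ∈ H45.CH0.Rat (pullback fR p1) := by
    intro z hz
    exact all_mem_Rat_line (A := .of RD) i uD vD (gR ≫ sD) gR hline_VR (pullback.fst fR p1) (q ≫ p2) hpb' z hz
  refine ⟨?_, ?_⟩
  · intro z hz
    refine ⟨0, ?_, ?_⟩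
    · intro x hx
      simp at hx
    · have : push q 0 = 0 := by simp [push]
      change z - push q 0 ∈ _
      rw [this, sub_zero]
      exact hW z hz
  · intro z' hz'
    have h1 : IsZeroCycle (push q z') := by
      classical
      intro x hx
      unfold push Finsupp.sum at hx
      obtain ⟨w, hw, hx⟩ := Finset.mem_biUnion.mp (Finsupp.support_finsetSum hx)
      have h2 := Finsupp.support_single_subset hx
      rw [Finset.mem_singleton] at h2
      rw [h2]
      have h3 := q.isClosedMap _ (hz' w hw)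
      rwa [Set.image_singleton] at h3
    exact ⟨fun _ => hW' z' hz', fun _ => hW _ h1⟩

theorem HasU_D (y : YD) : HasU sD y :=
  ⟨VD, trivial, VR, fR, resolution_fR, universal_fR⟩

end H45.PC
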